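import Pool.Agent.U218.CT.MainB

/-!
# The condition on the group in terms of normal subgroups of prime order; dihedral groups
-/

set_option autoImplicit false

namespace Pool.Agent.U218.CT

/-- for every normal subgroup `N` of prime order the elements `g` with `N ≤ ⟨g⟩` generate a
proper subgroup -/
def NotGenerated (G : Type*) [Group G] : Prop :=
  ∀ N : Subgroup G, N.Normal → (Nat.card N).Prime →
    Subgroup.closure {g : G | N ≤ Subgroup.zpowers g} ≠ ⊤

theorem spread_of_notGenerated {G : Type*} [Group G] [Finite G] (h : NotGenerated G) :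
    Spread G := by
  intro N hN hN0
  by_cases hex : ∀ g : G, ¬ N ≤ Subgroup.zpowers g
  · exact Or.inl hex
  right
  push Not at hex
  obtain ⟨g0, hg0⟩ := hex
  have hcyc : IsCyclic N :=
    isCyclic_of_injective (Subgroup.inclusion hg0) (Subgroup.inclusion_injective hg0)
  have hcomm : ∀ x ∈ N, ∀ y ∈ N, x * y = y * x := by
    intro x hx y hy
    obtain ⟨a, rfl⟩ := hg0 hx
    obtain ⟨b, rfl⟩ := hg0 hy
    simp only
    rw [← zpow_add, ← zpow_add, add_comm]
  have hcard : Nat.card N ≠ 1 := by
    intro h1
    exact hN0 (Subgroup.card_eq_one.mp h1)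
  obtain ⟨q, hq, hqN⟩ := Nat.exists_prime_and_dvd hcard
  -- the subgroup of order q
  let M : Subgroup G :=
    { carrier := {x | x ∈ N ∧ x ^ q = 1}
      mul_mem' := by
        rintro x y ⟨hx, hx'⟩ ⟨hy, hy'⟩
        refine ⟨N.mul_mem hx hy, ?_⟩
        rw [(show Commute x y from hcomm x hx y hy).mul_pow, hx', hy', one_mul]
      one_mem' := ⟨N.one_mem, one_pow q⟩
      inv_mem' := by
        rintro x ⟨hx, hx'⟩
        exact ⟨N.inv_mem hx, by rw [inv_pow, hx', inv_one]⟩ }
  have hMN : M ≤ N := fun x hx => hx.1
  have hMn : M.Normal := by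
    constructor
    rintro x ⟨hx, hx'⟩ y
    refine ⟨hN.conj_mem x hx y, ?_⟩
    rw [conj_pow, hx', mul_one, mul_inv_cancel]
  have hMc : Nat.card M = q := by
    have hfact : Fact q.Prime := ⟨hq⟩
    have h1 : q ∣ Nat.card M := by
      obtain ⟨x, hx⟩ := exists_prime_orderOf_dvd_card' (G := N) q hqN
      have h2 : (x : G) ∈ M := by
        refine ⟨x.2, ?_⟩
        have h3 : x ^ q = 1 := by rw [← hx]; exact pow_orderOf_eq_one x
        exact_mod_cast congrArg Subtype.val h3
      have h4 : orderOf (⟨(x : G), h2⟩ : M) = q := by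
        rw [Subgroup.orderOf_mk, Subgroup.orderOf_coe, hx]
      rw [← h4]
      exact orderOf_dvd_natCard _
    have h2 : Nat.card M ≤ q := by
      classical
      let _ : Fintype N := Fintype.ofFinite N
      have h3 := IsCyclic.card_pow_eq_one_le (α := N) hq.pos
      have h4 : Nat.card M ≤ Nat.card {x : N // x ^ q = 1} := by
        refine Nat.card_le_card_of_injective
          (fun x : M => (⟨⟨x.1, x.2.1⟩, by ext; push_cast; exact x.2.2⟩ : {x : N // x ^ q = 1})) ?_
        intro a b hab
        have := congrArg (fun z : {x : N // x ^ q = 1} => ((z.1 : N) : G)) hab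
        exact Subtype.ext this
      refine h4.trans ?_
      rw [Nat.card_eq_fintype_card, Fintype.card_subtype]
      exact h3
    exact le_antisymm h2 (Nat.le_of_dvd Nat.card_pos h1)
  have hM := h M hMn (by rw [hMc]; exact hq)
  set S : Set G := {g : G | M ≤ Subgroup.zpowers g} with hS
  have hconj : Group.conjugatesOfSet S = S := by
    refine Set.Subset.antisymm ?_ Group.subset_conjugatesOfSet
    intro y hy
    rw [Group.mem_conjugatesOfSet_iff] at hy
    obtain ⟨g, hg, hgy⟩ := hy
    obtain ⟨x, rfl⟩ := isConj_iff.mp hgy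
    intro m hm
    have h1 : x⁻¹ * m * x ∈ M := by
      have := hMn.conj_mem m hm x⁻¹
      rwa [inv_inv] at this
    obtain ⟨k, hk⟩ := hg h1
    refine ⟨k, ?_⟩
    simp only at hk ⊢
    rw [conj_zpow, hk]
    group
  have hnorm : (Subgroup.closure S).Normal := by
    have h1 : Subgroup.closure S = Subgroup.normalClosure S := by
      rw [Subgroup.normalClosure, hconj]
    rw [h1]
    exact Subgroup.normalClosure_normal
  refine ⟨Subgroup.closure S, hnorm, hM, ?_, ?_⟩
  · have h1 : g0 ∈ S := hMN.trans hg0
    refine hg0.trans ?_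
    rw [Subgroup.zpowers_le]
    exact Subgroup.subset_closure h1
  · intro g hg
    exact Subgroup.subset_closure (hMN.trans hg)

theorem notGenerated_dihedral {G : Type*} [Group G] {m : ℕ} (hm : 3 ≤ m)
    (φ : G ≃* DihedralGroup m) : NotGenerated G := by
  intro N hN hp htop
  have hne : NeZero m := ⟨by omega⟩
  -- the rotations
  let R : Subgroup G := (Subgroup.zpowers (DihedralGroup.r (1 : ZMod m))).comap φ.toMonoidHom
  have h1 : {g : G | N ≤ Subgroup.zpowers g} ⊆ R := by
    intro g hg
    have hg' : N ≤ Subgroup.zpowers g := hg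
    rcases hφ : φ g with i | i
    · show φ g ∈ Subgroup.zpowers (DihedralGroup.r (1 : ZMod m))
      rw [hφ]
      refine ⟨(i.val : ℤ), ?_⟩
      simp
    · exfalso
      have hgg : g * g = 1 := by
        apply φ.injective
        rw [map_mul, map_one, hφ, DihedralGroup.sr_mul_self]
      have hz : ∀ k : ℤ, g ^ k = 1 ∨ g ^ k = g := by
        intro k
        rcases Int.even_or_odd' k with ⟨j, rfl | rfl⟩
        · left
          rw [zpow_mul, zpow_two, hgg, one_zpow]
        · right
          rw [zpow_add, zpow_mul, zpow_two, hgg, one_zpow, one_mul, zpow_one]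
      obtain ⟨x, hxN, hx1⟩ : ∃ x ∈ N, x ≠ 1 := by
        by_contra hcon
        push Not at hcon
        have : N = ⊥ := by
          rw [eq_bot_iff]
          intro x hx
          exact hcon x hx
        rw [this, Subgroup.card_bot] at hp
        exact Nat.not_prime_one hp
      have hgN : g ∈ N := by
        obtain ⟨k, hk⟩ := hg' hxN
        simp only at hk
        rcases hz k with h | h
        · exact absurd (hk.symm.trans h) hx1
        · rw [← h, hk]; exact hxN
      have hg1 : g ≠ 1 := by
        rintro rfl
        rw [map_one, DihedralGroup.one_def] at hφ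
        cases hφ
      -- g is central
      have hc : ∀ y : G, y * g = g * y := by
        intro y
        obtain ⟨k, hk⟩ := hg' (hN.conj_mem g hgN y)
        simp only at hk
        rcases hz k with h | h
        · exfalso
          apply hg1
          have h2 : y * g * y⁻¹ = 1 := hk.symm.trans h
          have h3 : g = y⁻¹ * 1 * y := by rw [← h2]; group
          rw [h3]; group
        · have h2 : y * g * y⁻¹ = g := hk.symm.trans h
          calc y * g = (y * g * y⁻¹) * y := by group
            _ = g * y := by rw [h2]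
      have h2 := congrArg φ (hc (φ.symm (DihedralGroup.r 1)))
      rw [map_mul, map_mul, MulEquiv.apply_symm_apply, hφ, DihedralGroup.r_mul_sr,
        DihedralGroup.sr_mul_r, DihedralGroup.sr.injEq] at h2
      have h3 : (2 : ZMod m) = 0 := by linear_combination -h2
      have h4 : ((2 : ℕ) : ZMod m) = 0 := by exact_mod_cast h3
      rw [ZMod.natCast_eq_zero_iff] at h4
      have := Nat.le_of_dvd (by norm_num) h4
      omega
  have h2 : Subgroup.closure {g : G | N ≤ Subgroup.zpowers g} ≤ R := (Subgroup.closure_le R).mpr h1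
  rw [htop, top_le_iff] at h2
  have h3 : φ.symm (DihedralGroup.sr 0) ∈ R := by rw [h2]; trivial
  have h4 : φ (φ.symm (DihedralGroup.sr 0)) ∈ Subgroup.zpowers (DihedralGroup.r (1 : ZMod m)) := h3
  rw [MulEquiv.apply_symm_apply] at h4
  obtain ⟨k, hk⟩ := h4
  simp only at hk
  have h5 : ∀ k : ℤ, ∃ j : ZMod m, (DihedralGroup.r (1 : ZMod m)) ^ k = DihedralGroup.r j := by
    intro k
    exact ⟨k, by simp⟩
  obtain ⟨j, hj⟩ := h5 k
  rw [hj] at hk
  cases hk

end Pool.Agent.U218.CT
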