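import Pool.Agent.Helper923.HMertens

/-!
# Primes with two factors of degree one in a field of small discriminant
-/

set_option autoImplicit false

namespace Pool.Agent.U218.CT

open NumberField Finset
open scoped Classical nonZeroDivisors

/-- there are two different primes of norm `p` -/
def TwoDegOne (E : Type) [Field E] [NumberField E] (p : ℕ) : Prop :=
  ∃ P P' : Ideal (𝓞 E), P.IsPrime ∧ P'.IsPrime ∧ P ≠ P' ∧ Ideal.absNorm P = p ∧ Ideal.absNorm P' = p

/-- Stark's inequality, finite form -/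
def StarkIneq (E : Type) [Field E] [NumberField E] : Prop :=
  ∀ σ : ℝ, 1 < σ → σ ≤ 2 → ∀ S : Finset (Ideal (𝓞 E)), (∀ P ∈ S, P.IsPrime ∧ P ≠ ⊥) →
    ∑ P ∈ S, Real.log (Ideal.absNorm P) * (Ideal.absNorm P : ℝ) ^ (-σ) ≤
      1 / (σ - 1) + Real.log |(discr E : ℝ)| / 2

/-- the primes in a block -/
noncomputable def blk (y j : ℕ) : Finset ℕ := (Finset.Ioc (y ^ j) (y ^ (j + 1))).filter Nat.Prime

theorem blk_sum : ∃ C : ℝ, 0 ≤ C ∧ ∀ y j : ℕ, 2 ≤ y →
    Real.log y - C ≤ ∑ p ∈ blk y j, Real.log p / p := by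
  obtain ⟨C, hC⟩ := Pool.Agent.Helper923.HMertens.mertens_log
  have hC0 : 0 ≤ C := (abs_nonneg _).trans (hC 1 le_rfl)
  refine ⟨2 * C, by linarith, fun y j hy => ?_⟩
  have h1 := abs_le.mp (hC (y ^ j) (Nat.one_le_pow _ _ (by omega)))
  have h2 := abs_le.mp (hC (y ^ (j + 1)) (Nat.one_le_pow _ _ (by omega)))
  have hle : y ^ j ≤ y ^ (j + 1) := Nat.pow_le_pow_right (by omega) (Nat.le_succ j)
  have h3 : ∑ p ∈ (Finset.Icc 1 (y ^ (j + 1))).filter Nat.Prime, Real.log p / p =
      ∑ p ∈ (Finset.Icc 1 (y ^ j)).filter Nat.Prime, Real.log p / p +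
        ∑ p ∈ blk y j, Real.log p / p := by
    rw [← Finset.sum_union]
    · congr 1
      ext p
      rw [blk, mem_union, mem_filter, mem_filter, mem_filter, mem_Icc, mem_Icc, mem_Ioc]
      constructor
      · rintro ⟨⟨h4, h5⟩, h6⟩
        rcases le_or_gt p (y ^ j) with h7 | h7
        · exact Or.inl ⟨⟨h4, h7⟩, h6⟩
        · exact Or.inr ⟨⟨h7, h5⟩, h6⟩
      · rintro (⟨⟨h4, h5⟩, h6⟩ | ⟨⟨h4, h5⟩, h6⟩)
        · exact ⟨⟨h4, h5.trans hle⟩, h6⟩
        · exact ⟨⟨by omega, h5⟩, h6⟩
    · rw [Finset.disjoint_left]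
      intro p hp hp'
      rw [mem_filter, mem_Icc] at hp
      rw [blk, mem_filter, mem_Ioc] at hp'
      omega
  have h4 : Real.log ((y ^ (j + 1) : ℕ) : ℝ) - Real.log ((y ^ j : ℕ) : ℝ) = Real.log y := by
    push_cast
    rw [Real.log_pow, Real.log_pow]
    push_cast
    ring
  linarith [h1.1, h1.2, h2.1, h2.2]

/-- **many primes without two factors of degree one**: in a field with `|D_E| ≤ y` at least `√y`
primes up to `y ^ 12` have at most one factor of degree one -/
theorem many_nonsplit : ∃ y0 : ℕ, ∀ (E : Type) [Field E] [NumberField E], StarkIneq E →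
    ∀ y : ℕ, y0 ≤ y → |(discr E : ℝ)| ≤ y →
    √(y : ℝ) ≤ (((Finset.range (y ^ 12 + 1)).filter
      (fun p => p.Prime ∧ ¬ TwoDegOne E p)).card : ℝ) := by
  obtain ⟨C, hC0, hC⟩ := blk_sum
  refine ⟨⌈Real.exp (20 * (C + 12))⌉₊ + 2, ?_⟩
  intro E _ _ hE y hy hD
  by_contra hcon
  push Not at hcon
  set B := (Finset.range (y ^ 12 + 1)).filter (fun p => p.Prime ∧ ¬ TwoDegOne E p) with hB
  have hy2 : 2 ≤ y := by omega
  have hyr : (2 : ℝ) ≤ y := by exact_mod_cast hy2
  have hy0 : (0 : ℝ) < y := by linarith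
  have hly : 0 < Real.log y := Real.log_pos (by linarith)
  have hbig : 20 * (C + 12) ≤ Real.log y := by
    rw [Real.le_log_iff_exp_le hy0]
    refine (Nat.le_ceil _).trans ?_
    exact_mod_cast (by omega : ⌈Real.exp (20 * (C + 12))⌉₊ ≤ y)
  -- the exponent
  set τ : ℝ := 1 / (5 * Real.log y) with hτ
  have hτ0 : 0 < τ := by positivity
  have hτ1 : τ ≤ 1 := by
    rw [hτ, div_le_one (by positivity)]
    linarith
  -- the split primes beyond y
  set S : ℕ → Finset ℕ := fun j => (blk y j).filter (fun p => TwoDegOne E p) with hS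
  -- the blocks without the exceptional primes
  have hblk : ∀ j ∈ Finset.Icc 1 11, Real.log y - C - 12 ≤ ∑ p ∈ S j, Real.log p / p := by
    intro j hj
    rw [mem_Icc] at hj
    have h1 := hC y j hy2
    have h2 : ∑ p ∈ blk y j, Real.log p / p = ∑ p ∈ S j, Real.log p / p +
        ∑ p ∈ (blk y j).filter (fun p => ¬ TwoDegOne E p), Real.log p / p :=
      (Finset.sum_filter_add_sum_filter_not _ _ _).symm
    have h3 : ∑ p ∈ (blk y j).filter (fun p => ¬ TwoDegOne E p), Real.log p / p ≤ 12 := by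
      have h4 : (blk y j).filter (fun p => ¬ TwoDegOne E p) ⊆ B := by
        intro p hp
        rw [mem_filter, blk, mem_filter, mem_Ioc] at hp
        rw [hB, mem_filter, mem_range]
        refine ⟨?_, hp.1.2, hp.2⟩
        have : y ^ (j + 1) ≤ y ^ 12 := Nat.pow_le_pow_right (by omega) (by omega)
        omega
      calc ∑ p ∈ (blk y j).filter (fun p => ¬ TwoDegOne E p), Real.log p / p
          ≤ ∑ p ∈ (blk y j).filter (fun p => ¬ TwoDegOne E p), 12 * Real.log y / y := by
            refine Finset.sum_le_sum fun p hp => ?_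
            rw [mem_filter, blk, mem_filter, mem_Ioc] at hp
            have h5 : y ≤ y ^ j := Nat.le_self_pow (by omega) y
            have h6 : (y : ℝ) ≤ p := by exact_mod_cast (by omega : y ≤ p)
            have h7 : p ≤ y ^ 12 := by
              have : y ^ (j + 1) ≤ y ^ 12 := Nat.pow_le_pow_right (by omega) (by omega)
              omega
            have h8 : Real.log p ≤ 12 * Real.log y := by
              have h9 : Real.log p ≤ Real.log ((y : ℝ) ^ 12) :=
                Real.log_le_log (by linarith) (by exact_mod_cast h7)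
              rw [Real.log_pow] at h9
              push_cast at h9
              exact h9
            gcongr
        _ = (((blk y j).filter (fun p => ¬ TwoDegOne E p)).card : ℝ) * (12 * Real.log y / y) := by
            rw [Finset.sum_const, nsmul_eq_mul]
        _ ≤ √(y : ℝ) * (12 * Real.log y / y) := by
            have h5 : (((blk y j).filter (fun p => ¬ TwoDegOne E p)).card : ℝ) ≤ B.card := by
              exact_mod_cast Finset.card_le_card h4
            have h6 : 0 ≤ 12 * Real.log y / y := by positivity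
            exact mul_le_mul_of_nonneg_right (h5.trans hcon.le) h6
        _ ≤ 12 := by
            have h5 : Real.log y ≤ √(y : ℝ) := by
              have h6 := Real.log_le_sub_one_of_pos (show 0 < √(y : ℝ) / Real.exp 1 by positivity)
              rw [Real.log_div (by positivity) (by positivity), Real.log_exp,
                Real.log_sqrt hy0.le] at h6
              have h7 : √(y : ℝ) / Real.exp 1 ≤ √(y : ℝ) / 2 := by
                have := Real.exp_one_gt_d9
                gcongr
                linarith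
              linarith
            have h6 : √(y : ℝ) * √(y : ℝ) = y := Real.mul_self_sqrt hy0.le
            have h7 : √(y : ℝ) * (12 * Real.log y / y) = 12 * (√(y : ℝ) * Real.log y / y) := by ring
            rw [h7]
            have h8 : √(y : ℝ) * Real.log y / y ≤ 1 := by
              rw [div_le_one hy0]
              calc √(y : ℝ) * Real.log y ≤ √(y : ℝ) * √(y : ℝ) := by gcongr
                _ = y := h6
            linarith
    linarith
  -- the weights
  have hw : ∀ j ∈ Finset.Icc 1 11, ∀ p ∈ S j,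
      (4 / 5 : ℝ) ^ (j + 1) * (Real.log p / p) ≤ Real.log p * (p : ℝ) ^ (-(1 + τ)) := by
    intro j hj p hp
    rw [hS] at hp
    simp only at hp
    rw [mem_filter, blk, mem_filter, mem_Ioc] at hp
    have hp2 := hp.1.2.two_le
    have hpr : (2 : ℝ) ≤ p := by exact_mod_cast hp2
    have hp0 : (0 : ℝ) < p := by linarith
    have hlp : 0 < Real.log p := Real.log_pos (by linarith)
    have h1 : (p : ℝ) ^ (-(1 + τ)) = (p : ℝ) ^ (-τ) / p := by
      rw [show -(1 + τ) = -τ - 1 by ring, Real.rpow_sub hp0, Real.rpow_one]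
    have h2 : (4 / 5 : ℝ) ^ (j + 1) ≤ (p : ℝ) ^ (-τ) := by
      have h3 : Real.log p ≤ (j + 1 : ℕ) * Real.log y := by
        rw [← Real.log_pow]
        exact Real.log_le_log hp0 (by exact_mod_cast hp.1.1.2)
      have h4 : (p : ℝ) ^ (-τ) = Real.exp (-(τ * Real.log p)) := by
        rw [Real.rpow_def_of_pos hp0]
        congr 1
        ring
      have h5 : τ * Real.log p ≤ (j + 1 : ℕ) * (1 / 5) := by
        calc τ * Real.log p ≤ τ * ((j + 1 : ℕ) * Real.log y) := by gcongr
          _ = (j + 1 : ℕ) * (1 / 5) := by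
              rw [hτ]
              field_simp
      have h6 : (4 / 5 : ℝ) ≤ Real.exp (-(1 / 5)) := by
        have := Real.add_one_le_exp (-(1 / 5 : ℝ))
        linarith
      calc (4 / 5 : ℝ) ^ (j + 1) ≤ Real.exp (-(1 / 5)) ^ (j + 1) := by gcongr
        _ = Real.exp (-((j + 1 : ℕ) * (1 / 5))) := by
            rw [← Real.exp_nat_mul]
            congr 1
            ring
        _ ≤ Real.exp (-(τ * Real.log p)) := Real.exp_le_exp.mpr (by linarith)
        _ = (p : ℝ) ^ (-τ) := h4.symm
    rw [h1]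
    calc (4 / 5 : ℝ) ^ (j + 1) * (Real.log p / p) ≤ (p : ℝ) ^ (-τ) * (Real.log p / p) := by
          gcongr
      _ = Real.log p * ((p : ℝ) ^ (-τ) / p) := by ring
  -- the ideals
  set U : Finset ℕ := (Finset.Icc 1 11).biUnion S with hU
  have hUT : ∀ p ∈ U, p.Prime ∧ TwoDegOne E p := by
    intro p hp
    rw [hU, mem_biUnion] at hp
    obtain ⟨j, -, hp⟩ := hp
    rw [hS] at hp
    simp only at hp
    rw [mem_filter, blk, mem_filter] at hp
    exact ⟨hp.1.2, hp.2⟩
  have hlow : 2 * ∑ p ∈ U, Real.log p * (p : ℝ) ^ (-(1 + τ)) ≤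
      1 / τ + Real.log |(discr E : ℝ)| / 2 := by
    have hch : ∀ p : {p // p ∈ U}, ∃ P P' : Ideal (𝓞 E), P.IsPrime ∧ P'.IsPrime ∧ P ≠ P' ∧
        Ideal.absNorm P = p.1 ∧ Ideal.absNorm P' = p.1 := fun p => (hUT p.1 p.2).2
    choose P P' h1 h2 h3 h4 h5 using hch
    have hPi : Function.Injective P := fun a b hab => by
      apply Subtype.ext
      rw [← h4 a, ← h4 b, hab]
    have hP'i : Function.Injective P' := fun a b hab => by
      apply Subtype.ext
      rw [← h5 a, ← h5 b, hab]
    have hdis : Disjoint (Finset.univ.image P) (Finset.univ.image P') := by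
      rw [Finset.disjoint_left]
      intro Q hQ hQ'
      rw [mem_image] at hQ hQ'
      obtain ⟨a, -, rfl⟩ := hQ
      obtain ⟨b, -, hb⟩ := hQ'
      have hab : a = b := by
        apply Subtype.ext
        rw [← h4 a, ← h5 b, hb]
      rw [← hab] at hb
      exact h3 a hb.symm
    have hne : ∀ Q : Ideal (𝓞 E), ∀ p : ℕ, p.Prime → Ideal.absNorm Q = p → Q ≠ ⊥ := by
      rintro Q p hp hQ rfl
      rw [Ideal.absNorm_bot] at hQ
      exact hp.ne_zero hQ.symm
    have key := hE (1 + τ) (by linarith) (by linarith)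
      (Finset.univ.image P ∪ Finset.univ.image P') (by
        intro Q hQ
        rw [mem_union, mem_image, mem_image] at hQ
        rcases hQ with ⟨a, -, rfl⟩ | ⟨a, -, rfl⟩
        · exact ⟨h1 a, hne _ _ (hUT a.1 a.2).1 (h4 a)⟩
        · exact ⟨h2 a, hne _ _ (hUT a.1 a.2).1 (h5 a)⟩)
    rw [Finset.sum_union hdis, Finset.sum_image (fun a _ b _ h => hPi h),
      Finset.sum_image (fun a _ b _ h => hP'i h)] at key
    simp only [h4, h5] at key
    have e1 : ∑ x : {p // p ∈ U}, Real.log ((x.1 : ℕ) : ℝ) * ((x.1 : ℕ) : ℝ) ^ (-(1 + τ)) =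
        ∑ p ∈ U, Real.log p * (p : ℝ) ^ (-(1 + τ)) :=
      Finset.sum_coe_sort U (fun p => Real.log (p : ℝ) * (p : ℝ) ^ (-(1 + τ)))
    rw [e1] at key
    have e2 : 1 + τ - 1 = τ := by ring
    rw [e2] at key
    linarith
  -- disjoint blocks
  have hsum : ∑ p ∈ U, Real.log p * (p : ℝ) ^ (-(1 + τ)) =
      ∑ j ∈ Finset.Icc 1 11, ∑ p ∈ S j, Real.log p * (p : ℝ) ^ (-(1 + τ)) := by
    rw [hU, Finset.sum_biUnion]
    intro i _ j _ hij
    have aux : ∀ i j : ℕ, i < j → Disjoint (S i) (S j) := by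
      intro i j hij
      rw [Finset.disjoint_left]
      intro p hp hp'
      simp only [hS] at hp hp'
      rw [mem_filter, blk, mem_filter, mem_Ioc] at hp hp'
      have : y ^ (i + 1) ≤ y ^ j := Nat.pow_le_pow_right (by omega) hij
      omega
    rcases lt_or_gt_of_ne hij with h | h
    · exact aux i j h
    · exact (aux j i h).symm
  have hsum2 : (2925 / 1000 : ℝ) * (Real.log y - C - 12) ≤
      ∑ p ∈ U, Real.log p * (p : ℝ) ^ (-(1 + τ)) := by
    rw [hsum]
    have h1 : ∑ j ∈ Finset.Icc 1 11, (4 / 5 : ℝ) ^ (j + 1) * (Real.log y - C - 12) ≤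
        ∑ j ∈ Finset.Icc 1 11, ∑ p ∈ S j, Real.log p * (p : ℝ) ^ (-(1 + τ)) := by
      refine Finset.sum_le_sum fun j hj => ?_
      calc (4 / 5 : ℝ) ^ (j + 1) * (Real.log y - C - 12)
          ≤ (4 / 5 : ℝ) ^ (j + 1) * ∑ p ∈ S j, Real.log p / p := by
            have := hblk j hj
            gcongr
        _ = ∑ p ∈ S j, (4 / 5 : ℝ) ^ (j + 1) * (Real.log p / p) := by rw [Finset.mul_sum]
        _ ≤ _ := Finset.sum_le_sum fun p hp => hw j hj p hp
    rw [← Finset.sum_mul] at h1
    refine le_trans ?_ h1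
    have h2 : (2925 / 1000 : ℝ) ≤ ∑ j ∈ Finset.Icc 1 11, (4 / 5 : ℝ) ^ (j + 1) := by
      rw [show Finset.Icc 1 11 = {1, 2, 3, 4, 5, 6, 7, 8, 9, 10, 11} by decide]
      norm_num
    have h3 : 0 ≤ Real.log y - C - 12 := by linarith
    exact mul_le_mul_of_nonneg_right h2 h3
  have hlogD : Real.log |(discr E : ℝ)| ≤ Real.log y := by
    have h1 : (0 : ℝ) < |(discr E : ℝ)| := by
      rw [abs_pos]
      exact_mod_cast NumberField.discr_ne_zero E
    exact Real.log_le_log h1 hD
  have hτi : 1 / τ = 5 * Real.log y := by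
    rw [hτ, one_div_one_div]
  rw [hτi] at hlow
  nlinarith

end Pool.Agent.U218.CT
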