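import Pool.Agent.R362.NearOrd2
import Pool.Agent.U218.CT.Split

/-!
# Stark's inequality from the starting library
-/

set_option autoImplicit false

open NumberField Complex
open scoped ComplexConjugate

namespace Pool.Agent.U218.CT

open Pool.Agent.Y773 Pool.Agent.Y773.G
open Pool.Agent.R362.HL Pool.Agent.R362.Near

theorem stark (E : Type) [Field E] [NumberField E] (hn : 1 < Module.finrank ℚ E) :
    StarkIneq E := by
  intro σ hσ hσ2 S hS
  obtain ⟨X, hX⟩ := exists_xi E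
  have h1 := IsXi.LI_lower (E := E) (X := X) hX hn hσ (by linarith)
  have h2 : 1 < ((σ : ℝ) : ℂ).re := by rw [Complex.ofReal_re]; exact hσ
  obtain ⟨A', hA', hd⟩ := Pool.Agent.Y772.DK.t_dirK E
  obtain ⟨-, -, hne, -⟩ := hd (triv E) triv_norm
  have key : ∀ s : ℂ, 1 < s.re → logDeriv (LI (triv E)) s =
      -(-(deriv (Pool.Agent.Y772.DK.LA (Pool.Agent.Y772.DK.ee (triv E))) s)) := by
    intro s hs
    rw [neg_neg, logDeriv_apply, Pool.Agent.Y772.DK.deriv_LI (triv E) triv_norm hs, mul_div_assoc,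
      div_self (hne s hs), mul_one]
  have e2 := Complex.hasSum_re (Pool.Agent.Y772.DK.D_hasSum (triv E) triv_norm h2)
  have hterm : ∀ 𝔞 : Ideal (𝓞 E), 𝔞 ≠ ⊥ →
      (((Pool.Agent.Y773.VM 𝔞 : ℝ) : ℂ) * triv E 𝔞 *
        ((Ideal.absNorm 𝔞 : ℕ) : ℂ) ^ (-((σ : ℝ) : ℂ))).re =
      Pool.Agent.Y773.VM 𝔞 * ((Ideal.absNorm 𝔞 : ℕ) : ℝ) ^ (-σ) := by
    intro 𝔞 h𝔞
    have h3 : ((Ideal.absNorm 𝔞 : ℕ) : ℂ) ^ (-((σ : ℝ) : ℂ)) =
        (((Ideal.absNorm 𝔞 : ℕ) : ℝ) ^ (-σ) : ℝ) := by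
      rw [Complex.ofReal_cpow (Nat.cast_nonneg _), Complex.ofReal_natCast, Complex.ofReal_neg]
    rw [triv_apply h𝔞, mul_one, h3, ← Complex.ofReal_mul, Complex.ofReal_re]
  have h4 : ∑ P ∈ S, Real.log (Ideal.absNorm P) * (Ideal.absNorm P : ℝ) ^ (-σ) ≤
      -(logDeriv (LI (triv E)) (σ : ℂ)).re := by
    rw [key _ h2, Complex.neg_re, neg_neg]
    have h5 : ∑ P ∈ S, (((Pool.Agent.Y773.VM P : ℝ) : ℂ) * triv E P *
        ((Ideal.absNorm P : ℕ) : ℂ) ^ (-((σ : ℝ) : ℂ))).re ≤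
        (-(deriv (Pool.Agent.Y772.DK.LA (Pool.Agent.Y772.DK.ee (triv E))) (σ : ℂ))).re := by
      refine sum_le_hasSum S (fun 𝔞 _ => ?_) e2
      by_cases h𝔞 : 𝔞 = ⊥
      · rw [h𝔞, triv_bot]
        simp
      · rw [hterm 𝔞 h𝔞]
        exact mul_nonneg (Pool.Agent.Y772.DK.VM_nonneg _) (by positivity)
    refine le_trans (le_of_eq ?_) h5
    refine Finset.sum_congr rfl fun P hP => ?_
    obtain ⟨hP1, hP2⟩ := hS P hP
    rw [hterm P hP2]
    have h6 := Pool.Agent.Y772.DK.VM_pow (K := E) (Ideal.prime_of_isPrime hP2 hP1) (k := 1) one_ne_zero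
    rw [pow_one] at h6
    rw [h6]
  have h7 : lgd E = Real.log |(discr E : ℝ)| := by
    unfold lgd
    rw [Nat.cast_natAbs, Int.cast_abs]
  rw [h7] at h1
  exact h4.trans h1

end Pool.Agent.U218.CT
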