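import Pool.Agent.TH847.LG.Fin

/-!
# An upper bound for the weighted ideal sum, power form
-/

set_option autoImplicit false

namespace Pool.Agent.U218.CT

open NumberField Finset Pool.Agent.TH847.LS Pool.Agent.TH847.LG NumberField.InfinitePlace
open scoped Classical nonZeroDivisors

theorem W_bound (n : ℕ) (hn : 2 ≤ n) (ε : ℝ) (hε : 0 < ε) : ∃ C : ℝ, 0 < C ∧
    ∀ (K : Type) [Field K] [NumberField K], Module.finrank ℚ K = n →
    ∃ N : ℕ, 2 ^ n * √|(discr K : ℝ)| < N ∧
      ∑ J ∈ FI K N, (1 + Real.log ((N : ℝ) / Ideal.absNorm J)) ^ n ≤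
        C * |(discr K : ℝ)| ^ (1 / 2 + ε) := by
  obtain ⟨C1, hC10, hC1⟩ := dyadic
  obtain ⟨C2, hC20, hC2⟩ := sum_inv_card
  have hn1 : 1 ≤ n := by omega
  have hnr : (1 : ℝ) ≤ n := by exact_mod_cast hn1
  have hn0 : (0 : ℝ) < n := by linarith
  set δ : ℝ := ε / n with hδ
  have hδ0 : 0 < δ := by positivity
  refine ⟨(2 * n : ℝ) ^ n * (C1 * ((2 + 6 * n) * Real.exp (3 * n)) * 2 ^ (n + 1) *
    (Real.exp (n * C2) * (((2 : ℝ) ^ (n + 3)) ^ δ / δ) ^ n)), by positivity, ?_⟩
  intro K _ _ hK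
  have hD2 : 2 < |(discr K : ℝ)| := by
    have := abs_discr_gt_two (K := K) (by rw [hK]; omega)
    have h2 : ((2 : ℤ) : ℝ) < ((|discr K| : ℤ) : ℝ) := by exact_mod_cast this
    simpa using h2
  set D : ℝ := |(discr K : ℝ)| with hD
  have hs1 : 1 ≤ √D := by
    rw [Real.one_le_sqrt]; linarith
  have hsD : √D ≤ D := by
    rw [Real.sqrt_le_left (by linarith)]
    nlinarith
  set X : ℝ := 2 ^ n * √D with hX
  have hp1 : (1 : ℝ) ≤ 2 ^ n := one_le_pow₀ (by norm_num)
  have hX1 : 1 ≤ X := by nlinarith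
  set N := ⌊X⌋₊ + 1 with hN
  have hN1 : X < N := by
    rw [hN]; push_cast; exact Nat.lt_floor_add_one _
  have hN2 : (N : ℝ) ≤ 2 ^ (n + 1) * √D := by
    rw [hN]; push_cast
    have := Nat.floor_le (show 0 ≤ X by linarith)
    rw [pow_succ]
    nlinarith
  have hN3 : 1 ≤ N := by omega
  have hNr : (1 : ℝ) ≤ N := by exact_mod_cast hN3
  refine ⟨N, hN1, ?_⟩
  set W := ∑ J ∈ FI K N, (1 + Real.log ((N : ℝ) / Ideal.absNorm J)) ^ n with hW
  have hW1 : W ≤ (2 * n : ℝ) ^ n * ∑ J ∈ FI K N, √((N : ℝ) / Ideal.absNorm J) := by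
    rw [hW, Finset.mul_sum]
    refine Finset.sum_le_sum fun J hJ => ?_
    rw [mem_FI] at hJ
    have h4 : (0 : ℝ) < Ideal.absNorm J := by exact_mod_cast absNorm_pos hJ.2
    refine log_pow_le hn1 ?_
    rw [le_div_iff₀ h4, one_mul]
    exact_mod_cast hJ.1
  have hdy := hC1 K n hK N (by omega)
  have hW0 : 0 ≤ ∑ J ∈ FI K N, √((N : ℝ) / Ideal.absNorm J) :=
    Finset.sum_nonneg fun _ _ => Real.sqrt_nonneg _
  have hlN : 0 ≤ Real.log N := Real.log_nonneg hNr
  have hdy2 : ∑ J ∈ FI K N, √((N : ℝ) / Ideal.absNorm J) ≤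
      C1 * ((2 + 6 * n) * Real.exp (3 * n)) * N * EE K n N := by
    refine le_trans ?_ hdy
    nlinarith
  -- the Euler factor
  have hcard : ((TT K N).card : ℝ) + 2 ≤ 2 ^ (n + 3) * D := by
    have h1 : (TT K N).card ≤ N := by
      calc (TT K N).card ≤ (Finset.Icc 1 N).card :=
            (Finset.card_filter_le _ _).trans (Finset.card_filter_le _ _)
        _ = N := by simp
    have h2 : ((TT K N).card : ℝ) ≤ N := by exact_mod_cast h1
    have h3 : (2 : ℝ) ^ (n + 3) = 8 * 2 ^ n := by rw [pow_add]; norm_num; ring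
    have h4 : (2 : ℝ) ^ (n + 1) = 2 * 2 ^ n := by rw [pow_succ]; ring
    rw [h3]
    rw [h4] at hN2
    have h5 : (2 : ℝ) ^ n * √D ≤ 2 ^ n * D := by gcongr
    have h6 : 2 ≤ 2 ^ n * D := by nlinarith
    linarith
  have hc0 : (1 : ℝ) < ((TT K N).card : ℝ) + 2 := by
    have : (0 : ℝ) ≤ (TT K N).card := by positivity
    linarith
  have hlc : 0 < Real.log (((TT K N).card : ℝ) + 2) := Real.log_pos hc0
  have hEE : EE K n N ≤ Real.exp (n * C2) * (((2 : ℝ) ^ (n + 3)) ^ δ / δ) ^ n * D ^ ε := by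
    have h1 := hC2 (TT K N) (fun p hp => by rw [mem_TT] at hp; exact hp.1.2)
    unfold EE
    calc Real.exp (n * ∑ p ∈ TT K N, 1 / (p : ℝ))
        ≤ Real.exp (n * (Real.log (Real.log (((TT K N).card : ℝ) + 2)) + C2)) := by
          refine Real.exp_le_exp.mpr ?_
          gcongr
      _ = Real.exp (n * C2) * (Real.log (((TT K N).card : ℝ) + 2)) ^ n := by
          rw [mul_add, Real.exp_add, mul_comm,
            Real.exp_nat_mul (Real.log (Real.log (((TT K N).card : ℝ) + 2))) n, Real.exp_log hlc]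
      _ ≤ Real.exp (n * C2) * ((((2 : ℝ) ^ (n + 3)) ^ δ / δ) ^ n * D ^ ε) := by
          refine mul_le_mul_of_nonneg_left ?_ (Real.exp_pos _).le
          have h2 : Real.log (((TT K N).card : ℝ) + 2) ≤
              ((2 : ℝ) ^ (n + 3)) ^ δ / δ * D ^ δ := by
            calc Real.log (((TT K N).card : ℝ) + 2)
                ≤ (((TT K N).card : ℝ) + 2) ^ δ / δ := Real.log_le_rpow_div (by linarith) hδ0
              _ ≤ (2 ^ (n + 3) * D) ^ δ / δ := by
                  gcongr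
              _ = _ := by
                  rw [Real.mul_rpow (by positivity) (by linarith)]
                  ring
          calc (Real.log (((TT K N).card : ℝ) + 2)) ^ n
              ≤ (((2 : ℝ) ^ (n + 3)) ^ δ / δ * D ^ δ) ^ n := by gcongr
            _ = (((2 : ℝ) ^ (n + 3)) ^ δ / δ) ^ n * D ^ ε := by
                rw [mul_pow, ← Real.rpow_natCast (D ^ δ), ← Real.rpow_mul (by linarith)]
                congr 2
                rw [hδ]
                field_simp
      _ = _ := by ring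
  have hEpos := EE_pos (K := K) n N
  calc W ≤ (2 * n : ℝ) ^ n * (C1 * ((2 + 6 * n) * Real.exp (3 * n)) * (2 ^ (n + 1) * √D) *
        (Real.exp (n * C2) * (((2 : ℝ) ^ (n + 3)) ^ δ / δ) ^ n * D ^ ε)) := by
        refine hW1.trans ?_
        refine mul_le_mul_of_nonneg_left (hdy2.trans ?_) (by positivity)
        gcongr
    _ = _ := by
        rw [Real.rpow_add (by linarith), ← Real.sqrt_eq_rpow]
        ring

end Pool.Agent.U218.CT
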