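import Pool.Agent.U218.CT.Main

/-!
# Several scales
-/

set_option autoImplicit false

namespace Pool.Agent.U218.CT

open NumberField Finset Pool.Agent.TH847.LS Pool.Agent.TH847.LG NumberField.InfinitePlace
open scoped Classical nonZeroDivisors

/-- two different primes above `p` with the same restriction to `F` -/
def TwoAt {K : Type} [Field K] [NumberField K] (F : IntermediateField ℚ K) (p : ℕ) : Prop :=
  ∃ P P' : Ideal (𝓞 K), P.IsPrime ∧ P'.IsPrime ∧ P ≠ P' ∧ (p : 𝓞 K) ∈ P ∧ (p : 𝓞 K) ∈ P' ∧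
    ∀ x ∈ P, (x : K) ∈ F → x ∈ P'

/-- the packing inequality for a set of small primes -/
theorem pack_set {K : Type} [Field K] [NumberField K] {n : ℕ} (hK : Module.finrank ℚ K = n)
    {l : ℕ} (hl : 1 ≤ l) (N : ℕ) (hN : 2 ^ n * √|(discr K : ℝ)| < N) (X : ℕ) (S : Finset ℕ)
    (hS : ∀ p ∈ S, p.Prime ∧ p ≤ X ∧ TwoAt (smallField K ((150 * (X : ℝ) ^ 2) ^ l)) p) :
    max 1 (S.card : ℝ) * (Nat.card {c : ClassGroup (𝓞 K) // c ^ l = 1} : ℝ) ≤
      ∑ J ∈ FI K N, (1 + Real.log ((N : ℝ) / Ideal.absNorm J)) ^ n := by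
  set W := ∑ J ∈ FI K N, (1 + Real.log ((N : ℝ) / Ideal.absNorm J)) ^ n with hWd
  set T := Nat.card {c : ClassGroup (𝓞 K) // c ^ l = 1} with hT
  have hTh : T ≤ Nat.card (ClassGroup (𝓞 K)) :=
    Nat.card_le_card_of_injective _ Subtype.val_injective
  have hT1 : (T : ℝ) ≤ W := by
    have h1 := class_le_n hK N hN
    have h2 : (T : ℝ) ≤ Nat.card (ClassGroup (𝓞 K)) := by exact_mod_cast hTh
    linarith
  have hT2 : (S.card : ℝ) * T ≤ W := by
    have hex : ∀ p : {p // p ∈ S}, ∃ (P J : (Ideal (𝓞 K))⁰) (P' : Ideal (𝓞 K)),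
        (P : Ideal (𝓞 K)) * (J : Ideal (𝓞 K)) = Ideal.span {((p.1 : ℕ) : 𝓞 K)} ∧
        (P : Ideal (𝓞 K)).IsPrime ∧ P'.IsPrime ∧ (P : Ideal (𝓞 K)) ≠ P' ∧
        (p.1 : 𝓞 K) ∈ (P : Ideal (𝓞 K)) ∧ (p.1 : 𝓞 K) ∈ P' ∧
        ∀ x ∈ (P : Ideal (𝓞 K)), (x : K) ∈ smallField K ((150 * (X : ℝ) ^ 2) ^ l) → x ∈ P' := by
      rintro ⟨p, hp⟩
      obtain ⟨hpp, -, P, P', hP, hP', hne, hpP, hpP', hF⟩ := hS p hp
      have hp0 : (p : 𝓞 K) ≠ 0 := by exact_mod_cast hpp.ne_zero
      have h1 : P ∣ Ideal.span {(p : 𝓞 K)} := by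
        rw [Ideal.dvd_span_singleton]
        exact hpP
      obtain ⟨J, hJ⟩ := h1
      have hsp : Ideal.span {(p : 𝓞 K)} ≠ 0 := by
        rw [Ne, Ideal.zero_eq_bot, Ideal.span_singleton_eq_bot]
        exact hp0
      have hP0 : P ≠ 0 := by
        rintro rfl
        rw [zero_mul] at hJ
        exact hsp hJ
      have hJ0 : J ≠ 0 := by
        rintro rfl
        rw [mul_zero] at hJ
        exact hsp hJ
      exact ⟨⟨P, mem_nonZeroDivisors_iff_ne_zero.mpr hP0⟩,
        ⟨J, mem_nonZeroDivisors_iff_ne_zero.mpr hJ0⟩, P', hJ.symm, hP, hP', hne, hpP, hpP', hF⟩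
    choose P J P' h1 h2 h3 h4 h5 h6 h7 using hex
    have hSm : ∀ p : {p // p ∈ S}, p.1.Prime ∧ p.1 ≤ X := by
      rintro ⟨p, hp⟩
      exact ⟨(hS p hp).1, (hS p hp).2.1⟩
    have key := ev2 hK hl N hN {p // p ∈ S} (fun p => p.1) X P J
      (fun p => ⟨(hSm p).1.pos, (hSm p).2⟩) h1
      (fun i j hij z hz0 hz hw => by
        refine no_gen hl (smallField K ((150 * (X : ℝ) ^ 2) ^ l)) (hSm j).1 (hSm i).1
          (fun h => hij (Subtype.ext h.symm)) (P j) (P' j) (J i) (h2 j) (h3 j) (h4 j) (h5 j)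
          (h6 j) (h7 j) ?_ z hz (mem_smallField z hw)
        have h8 : (i.1 : 𝓞 K) ∈ Ideal.span {((i.1 : ℕ) : 𝓞 K)} := Ideal.mem_span_singleton_self _
        rw [← h1 i] at h8
        exact Ideal.mul_le_right h8)
    rw [Fintype.card_coe] at key
    exact key
  rcases le_total (1 : ℝ) (S.card : ℝ) with h | h
  · rw [max_eq_right h]; exact hT2
  · rw [max_eq_left h, one_mul]; exact hT1

theorem smallField_mono {K : Type} [Field K] [NumberField K] {S T : ℝ} (h : S ≤ T) :
    smallField K S ≤ smallField K T := by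
  unfold smallField
  refine IntermediateField.adjoin.mono _ _ _ ?_
  rintro x ⟨y, rfl, hy⟩
  exact ⟨y, rfl, fun w => (hy w).trans h⟩

/-- one of `n` steps does not change the field -/
theorem exists_stable {K : Type} [Field K] [NumberField K] {n : ℕ} (hK : Module.finrank ℚ K = n)
    (Y : ℕ → ℝ) (hY : Monotone Y) :
    ∃ i < n, smallField K (Y i) = smallField K (Y (i + 1)) := by
  by_contra hcon
  push Not at hcon
  have h1 : ∀ i ≤ n, i + 1 ≤ Module.finrank ℚ (smallField K (Y i)) := by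
    intro i
    induction i with
    | zero => intro _; exact Nat.succ_le_of_lt Module.finrank_pos
    | succ i ih =>
      intro hi
      have h2 := ih (by omega)
      have h3 : smallField K (Y i) ≤ smallField K (Y (i + 1)) := smallField_mono (hY (Nat.le_succ i))
      have h4 : Module.finrank ℚ (smallField K (Y i)) ≤
          Module.finrank ℚ (smallField K (Y (i + 1))) :=
        IntermediateField.finrank_le_of_le_right h3
      have h5 : Module.finrank ℚ (smallField K (Y i)) ≠
          Module.finrank ℚ (smallField K (Y (i + 1))) := by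
        intro h
        exact hcon i (by omega) (IntermediateField.eq_of_le_of_finrank_eq h3 h)
      omega
  have h2 := h1 n le_rfl
  have h3 : Module.finrank ℚ (smallField K (Y n)) ≤ Module.finrank ℚ K :=
    LinearMap.finrank_le_finrank_of_injective (f := (smallField K (Y n)).val.toLinearMap)
      (smallField K (Y n)).val.injective
  omega

/-- the field generated by the small integers is generated by its own small integers -/
theorem smallField_self {K : Type} [Field K] [NumberField K] {T : ℝ} (F : IntermediateField ℚ K)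
    (hF : F = smallField K T) : smallField F T = ⊤ := by
  have hFK : IsScalarTower ℚ F K := IsScalarTower.of_algebraMap_eq' (Subsingleton.elim _ _)
  set ι : F →ₐ[ℚ] K := IsScalarTower.toAlgHom ℚ F K with hι
  have h1 : smallField K T ≤ (smallField F T).map ι := by
    rw [smallField, IntermediateField.adjoin_le_iff]
    rintro x ⟨y, rfl, hy⟩
    have hyF : (y : K) ∈ F := by rw [hF]; exact mem_smallField y hy
    have hint : IsIntegral ℤ (⟨(y : K), hyF⟩ : F) := by
      rw [← isIntegral_algebraMap_iff (algebraMap F K).injective]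
      exact RingOfIntegers.isIntegral_coe y
    let z : 𝓞 F := ⟨⟨(y : K), hyF⟩, hint⟩
    refine ⟨(z : F), mem_smallField z ?_, rfl⟩
    intro w'
    obtain ⟨w, rfl⟩ := InfinitePlace.comap_surjective (k := F) (K := K) w'
    exact hy w
  rw [eq_top_iff]
  intro x _
  have h2 : (x : K) ∈ smallField K T := by rw [← hF]; exact x.2
  obtain ⟨m, hm, hmx⟩ := h1 h2
  have h3 : m = x := by
    apply (algebraMap F K).injective
    exact hmx
  rw [← h3]
  exact hm

/-- the discriminant of the field generated by the small integers -/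
theorem discr_smallField {K : Type} [Field K] [NumberField K] {n : ℕ}
    (hK : Module.finrank ℚ K = n) {T : ℝ} (hT : 1 ≤ T) (F : IntermediateField ℚ K)
    (hF : F = smallField K T) : |(discr F : ℝ)| ≤ (2 * (n : ℝ) ^ 3 * T) ^ (n ^ 2) := by
  set m := Module.finrank ℚ F with hm
  have h0 : 0 < m := Module.finrank_pos
  have h3 : m ≤ n := by
    rw [← hK]
    exact LinearMap.finrank_le_finrank_of_injective (f := F.val.toLinearMap) F.val.injective
  have h1 := discr_le_of_top (K := F) (n := m) hm.symm (by linarith) (smallField_self F hF)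
  have hmr : (m : ℝ) ≤ n := by exact_mod_cast h3
  have hm1 : (1 : ℝ) ≤ m := by exact_mod_cast h0
  refine h1.trans ?_
  calc (2 * (m * (m * m) * T)) ^ (m * (m - 1)) ≤ (2 * (n : ℝ) ^ 3 * T) ^ (m * (m - 1)) := by
        have : 2 * ((m : ℝ) * (m * m) * T) ≤ 2 * (n : ℝ) ^ 3 * T := by
          have h4 : (m : ℝ) * (m * m) ≤ (n : ℝ) ^ 3 := by
            have : (m : ℝ) * (m * m) = (m : ℝ) ^ 3 := by ring
            rw [this]
            gcongr
          nlinarith
        gcongr
    _ ≤ (2 * (n : ℝ) ^ 3 * T) ^ (n ^ 2) := by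
        refine pow_le_pow_right₀ ?_ ?_
        · have hn1 : (1 : ℝ) ≤ (n : ℝ) ^ 3 := one_le_pow₀ (by linarith)
          nlinarith
        · calc m * (m - 1) ≤ n * n := Nat.mul_le_mul h3 ((Nat.sub_le _ _).trans h3)
            _ = n ^ 2 := by ring

end Pool.Agent.U218.CT
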