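import Pool.Agent.U218.CT.Grp
import Pool.Agent.U218.CT.Scale
import Pool.Agent.U218.CT.Split

/-!
# Frobenius elements and the two kinds of primes
-/

set_option autoImplicit false

namespace Pool.Agent.U218.CT

open NumberField Finset
open scoped Classical nonZeroDivisors Pointwise

/-- a prime with residue field of `p` elements -/
theorem absNorm_eq {E : Type} [Field E] [NumberField E] {p : ℕ} (hp : p.Prime)
    (q : Ideal (𝓞 E)) [hq : q.IsPrime] (hpq : (p : 𝓞 E) ∈ q)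
    (h : ∀ y : 𝓞 E, y ^ p - y ∈ q) : Ideal.absNorm q = p := by
  have hq0 : q ≠ ⊥ := by
    rintro rfl
    rw [Ideal.mem_bot] at hpq
    exact hp.ne_zero (by exact_mod_cast hpq)
  have : Finite (𝓞 E ⧸ q) := Ideal.finiteQuotientOfFreeOfNeBot q hq0
  have hqm : q.IsMaximal := hq.isMaximal hq0
  let _ := Ideal.Quotient.field q
  let _ : Fintype (𝓞 E ⧸ q) := Fintype.ofFinite _
  have hfact : Fact p.Prime := ⟨hp⟩
  have hchar : CharP (𝓞 E ⧸ q) p := by
    have h1 : ringChar (𝓞 E ⧸ q) = p := CharP.ringChar_of_prime_eq_zero hp (by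
      rw [← map_natCast (Ideal.Quotient.mk q)]
      exact Ideal.Quotient.eq_zero_iff_mem.2 hpq)
    exact h1 ▸ ringChar.charP (𝓞 E ⧸ q)
  have h1 : Ideal.absNorm q = Nat.card (𝓞 E ⧸ q) := by
    rw [Ideal.absNorm_apply, Submodule.cardQuot_apply]
  rw [h1]
  obtain ⟨m, -, hm⟩ := FiniteField.card (𝓞 E ⧸ q) p
  have h2 : p ≤ Nat.card (𝓞 E ⧸ q) := by
    rw [Nat.card_eq_fintype_card, hm]
    exact Nat.le_self_pow m.pos.ne' p
  refine le_antisymm ?_ h2
  obtain ⟨g, hg⟩ := IsCyclic.exists_generator (α := (𝓞 E ⧸ q)ˣ)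
  have h3 : orderOf g = Nat.card (𝓞 E ⧸ q)ˣ := orderOf_eq_card_of_forall_mem_zpowers hg
  have h4 : g ^ (p - 1) = 1 := by
    have h5 : ∀ x : 𝓞 E ⧸ q, x ^ p = x := by
      intro x
      obtain ⟨y, rfl⟩ := Ideal.Quotient.mk_surjective x
      rw [← map_pow, Ideal.Quotient.eq]
      exact h y
    have h6 : (g : 𝓞 E ⧸ q) ^ p = g := h5 g
    have h7 : g ^ p = g := by
      ext
      push_cast
      exact h6
    have h8 : g ^ (p - 1) * g = g := by
      rw [← pow_succ, Nat.sub_add_cancel hp.one_lt.le, h7]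
    exact mul_eq_right.mp h8
  have h5 : orderOf g ∣ p - 1 := orderOf_dvd_of_pow_eq_one h4
  have h6 : orderOf g ≤ p - 1 := Nat.le_of_dvd (by have := hp.two_le; omega) h5
  rw [h3, Nat.card_units] at h6
  have := hp.two_le
  omega

variable {K : Type} [Field K] [NumberField K]

theorem under_eq {p : ℕ} (hp : p.Prime) (Q : Ideal (𝓞 K)) [hQ : Q.IsPrime] (h : (p : 𝓞 K) ∈ Q) :
    Q.under ℤ = Ideal.span {(p : ℤ)} := by
  have h1 : (Ideal.span {(p : ℤ)}).IsMaximal :=
    PrincipalIdealRing.isMaximal_of_irreducible (Nat.prime_iff_prime_int.mp hp).irreducible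
  refine (h1.eq_of_le ?_ ?_).symm
  · exact (inferInstance : (Q.under ℤ).IsPrime).ne_top
  · rw [Ideal.span_singleton_le_iff_mem, Ideal.under_def, Ideal.mem_comap]
    simpa using h

theorem card_quot {p : ℕ} (hp : p.Prime) (Q : Ideal (𝓞 K)) [hQ : Q.IsPrime] (h : (p : 𝓞 K) ∈ Q) :
    Nat.card (ℤ ⧸ Q.under ℤ) = p := by
  rw [under_eq hp Q h, Nat.card_congr (Int.quotientSpanNatEquivZMod p).toEquiv, Nat.card_zmod]

theorem smul_nat_mem {p : ℕ} (Q : Ideal (𝓞 K)) (h : (p : 𝓞 K) ∈ Q) (x : K ≃ₐ[ℚ] K) :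
    (p : 𝓞 K) ∈ x • Q := by
  have h1 := Ideal.smul_mem_pointwise_smul x _ _ h
  have h2 : x • (p : 𝓞 K) = (p : 𝓞 K) := by
    apply RingOfIntegers.coe_injective
    exact map_natCast x p
  rwa [h2] at h1

/-- the decomposition group is generated by Frobenius -/
theorem stab_zpowers [IsGalois ℚ K] {p : ℕ} (hp : p.Prime)
    (hd : ¬ (p : ℤ) ∣ discr K) (Q : Ideal (𝓞 K)) [hQ : Q.IsPrime] (hpQ : (p : 𝓞 K) ∈ Q)
    (g : K ≃ₐ[ℚ] K) (hg : IsArithFrobAt ℤ g Q) (d : K ≃ₐ[ℚ] K) (hdQ : d • Q = Q) :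
    d ∈ Subgroup.zpowers g := by
  obtain ⟨u, hu, k, hk⟩ := stab_le K hp hd Q hpQ g hg d hdQ
  have h1 : u = 1 := by
    ext x
    exact hu x
  rw [h1, one_mul] at hk
  exact ⟨k, by rw [hk]; simp⟩

/-- there is a Frobenius element, and either its powers contain the fixing group of `F` or there
are two primes above `p` with the same restriction to `F` -/
theorem frob_or [IsGalois ℚ K] (F : IntermediateField ℚ K) {p : ℕ} (hp : p.Prime)
    (hd : ¬ (p : ℤ) ∣ discr K) : ∃ (Q : Ideal (𝓞 K)) (g : K ≃ₐ[ℚ] K), Q.IsPrime ∧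
      (p : 𝓞 K) ∈ Q ∧ IsArithFrobAt ℤ g Q ∧
      (F.fixingSubgroup ≤ Subgroup.zpowers g ∨ TwoAt F p) := by
  obtain ⟨Q, hQ, hpQ⟩ := exists_prime_above (L := K) hp
  have hQb : Q ≠ ⊥ := by
    rintro rfl
    rw [Ideal.mem_bot] at hpQ
    exact hp.ne_zero (by exact_mod_cast hpQ)
  have : Finite (𝓞 K ⧸ Q) := Ideal.finiteQuotientOfFreeOfNeBot Q hQb
  obtain ⟨g, hg⟩ := IsArithFrobAt.exists_of_isInvariant ℤ (K ≃ₐ[ℚ] K) Q
  refine ⟨Q, g, hQ, hpQ, hg, ?_⟩
  by_cases h : F.fixingSubgroup ≤ Subgroup.zpowers g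
  · exact Or.inl h
  · right
    rw [SetLike.not_le_iff_exists] at h
    obtain ⟨v, hv, hvg⟩ := h
    refine ⟨Q, v • Q, hQ, hQ.smul v, ?_, hpQ, smul_nat_mem Q hpQ v, ?_⟩
    · intro h
      exact hvg (stab_zpowers hp hd Q hpQ g hg v h.symm)
    · intro y hy hyF
      have h1 := Ideal.smul_mem_pointwise_smul v _ _ hy
      have h2 : v • y = y := by
        apply RingOfIntegers.coe_injective
        exact (IntermediateField.mem_fixingSubgroup_iff _ _).mp hv _ hyF
      rwa [h2] at h1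

/-- if Frobenius lies in a normal subgroup, then `p` splits in its fixed field -/
theorem frob_fixed [IsGalois ℚ K] (H : Subgroup (K ≃ₐ[ℚ] K)) {p : ℕ} (hp : p.Prime)
    (Q : Ideal (𝓞 K)) [hQ : Q.IsPrime] (hpQ : (p : 𝓞 K) ∈ Q)
    (g : K ≃ₐ[ℚ] K) (hg : IsArithFrobAt ℤ g Q) (hgH : g ∈ H) :
    Ideal.absNorm (Q.under (𝓞 (IntermediateField.fixedField H))) = p := by
  refine absNorm_eq hp _ ?_ ?_
  · rw [Ideal.under_def, Ideal.mem_comap, map_natCast]
    exact hpQ
  · intro y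
    rw [Ideal.under_def, Ideal.mem_comap, map_sub, map_pow]
    have h1 := hg (algebraMap (𝓞 (IntermediateField.fixedField H)) (𝓞 K) y)
    have h2 : g • (algebraMap (𝓞 (IntermediateField.fixedField H)) (𝓞 K) y) =
        algebraMap (𝓞 (IntermediateField.fixedField H)) (𝓞 K) y := by
      apply RingOfIntegers.coe_injective
      exact (y : IntermediateField.fixedField H).2 ⟨g, hgH⟩
    have h3 : (MulSemiringAction.toAlgHom ℤ (𝓞 K) g)
        (algebraMap (𝓞 (IntermediateField.fixedField H)) (𝓞 K) y) =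
        algebraMap (𝓞 (IntermediateField.fixedField H)) (𝓞 K) y := h2
    rw [h3, card_quot hp Q hpQ] at h1
    rw [← neg_sub]
    exact Q.neg_mem h1

theorem twoDegOne_of [IsGalois ℚ K] (H : Subgroup (K ≃ₐ[ℚ] K)) [hH : H.Normal] (hHt : H ≠ ⊤)
    {p : ℕ} (hp : p.Prime) (hd : ¬ (p : ℤ) ∣ discr K)
    (Q : Ideal (𝓞 K)) [hQ : Q.IsPrime] (hpQ : (p : 𝓞 K) ∈ Q)
    (g : K ≃ₐ[ℚ] K) (hg : IsArithFrobAt ℤ g Q) (hgH : g ∈ H) :
    TwoDegOne (IntermediateField.fixedField H) p := by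
  obtain ⟨x, hx⟩ : ∃ x, x ∉ H := by
    by_contra hcon
    push Not at hcon
    exact hHt (eq_top_iff.mpr fun x _ => hcon x)
  have hQp : (x • Q).IsPrime := hQ.smul x
  have hgx : IsArithFrobAt ℤ (x * g * x⁻¹) (x • Q) := hg.conj x
  refine ⟨Q.under _, (x • Q).under _, inferInstance, inferInstance, ?_,
    frob_fixed H hp Q hpQ g hg hgH,
    frob_fixed H hp (x • Q) (smul_nat_mem Q hpQ x) _ hgx (hH.conj_mem g hgH x)⟩
  intro h
  obtain ⟨u, hu⟩ := Algebra.IsInvariant.exists_smul_of_under_eq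
    (𝓞 (IntermediateField.fixedField H)) (𝓞 K) (K ≃ₐ[IntermediateField.fixedField H] K) Q (x • Q) h
  set u' : K ≃ₐ[ℚ] K := u.restrictScalars ℚ with hu'
  have hu'H : u' ∈ H := by
    rw [← IntermediateField.fixingSubgroup_fixedField H, IntermediateField.mem_fixingSubgroup_iff]
    intro y hy
    exact u.commutes ⟨y, hy⟩
  have hu2 : u' • Q = u • Q := rfl
  have h1 : (u'⁻¹ * x) • Q = Q := by
    rw [mul_smul, hu, ← hu2, inv_smul_smul]
  have h2 := stab_zpowers hp hd Q hpQ g hg _ h1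
  have h3 : u'⁻¹ * x ∈ H := (Subgroup.zpowers_le.mpr hgH) h2
  apply hx
  have h4 := H.mul_mem hu'H h3
  rwa [mul_inv_cancel_left] at h4

/-- the field generated by the small integers is stable under automorphisms -/
theorem smallField_normal (T : ℝ) : (smallField K T).fixingSubgroup.Normal := by
  have hst : ∀ (σ : K ≃ₐ[ℚ] K), ∀ x ∈ smallField K T, σ x ∈ smallField K T := by
    intro σ x hx
    have hx' := hx
    unfold smallField at hx
    induction hx using IntermediateField.adjoin_induction with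
    | mem x hx =>
      obtain ⟨y, rfl, hy⟩ := hx
      have h1 : ∀ w : InfinitePlace K, w ((σ • y : 𝓞 K) : K) ≤ T := by
        intro w
        rw [coe_smul_int]
        exact hy (w.comap (σ : K →+* K))
      exact mem_smallField (σ • y) h1
    | algebraMap q => rw [AlgEquiv.commutes]; exact (smallField K T).algebraMap_mem q
    | add x y hx hy ihx ihy =>
      rw [map_add]
      exact (smallField K T).add_mem (ihx hx) (ihy hy)
    | inv x hx ihx =>
      rw [map_inv₀]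
      exact (smallField K T).inv_mem (ihx hx)
    | mul x y hx hy ihx ihy =>
      rw [map_mul]
      exact (smallField K T).mul_mem (ihx hx) (ihy hy)
  constructor
  intro v hv σ
  rw [IntermediateField.mem_fixingSubgroup_iff] at hv ⊢
  intro x hx
  have h1 := hv _ (hst σ⁻¹ x hx)
  rw [AlgEquiv.mul_apply, AlgEquiv.mul_apply, h1]
  exact AlgEquiv.apply_symm_apply σ x

end Pool.Agent.U218.CT
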