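import Mathlib

/-!
# Decomposition groups modulo the fixing group of a subfield
-/

set_option autoImplicit false

namespace Pool.Agent.U218.CT

open NumberField Finset
open scoped Classical nonZeroDivisors Pointwise

variable {L : Type} [Field L] [NumberField L]

/-- `Gal(L/K)` as a subgroup of `Gal(L/ℚ)` -/
def fixer (K L : Type) [Field K] [Field L] [NumberField L] [Algebra K L] :
    Subgroup (L ≃ₐ[ℚ] L) where
  carrier := {σ | ∀ x : K, σ (algebraMap K L x) = algebraMap K L x}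
  mul_mem' {σ τ} hσ hτ x := by
    rw [AlgEquiv.mul_apply, hτ x, hσ x]
  one_mem' x := rfl
  inv_mem' {σ} hσ x := by
    change σ.symm (algebraMap K L x) = _
    rw [AlgEquiv.symm_apply_eq]
    exact (hσ x).symm

theorem mem_fixer {K : Type} [Field K] [Algebra K L] {σ : L ≃ₐ[ℚ] L} :
    σ ∈ fixer K L ↔ ∀ x : K, σ (algebraMap K L x) = algebraMap K L x := Iff.rfl

theorem coe_smul_int (σ : L ≃ₐ[ℚ] L) (x : 𝓞 L) : ((σ • x : 𝓞 L) : L) = σ (x : L) := rfl

/-- elements congruent to the identity modulo a prime of `L` above a prime number `p` which does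
not divide the discriminant of `K` fix `K` -/
theorem inertia_le [IsGalois ℚ L] (K : Type) [Field K] [NumberField K] [Algebra K L] {p : ℕ}
    (hp : p.Prime)
    (hd : ¬ (p : ℤ) ∣ discr K) (Q : Ideal (𝓞 L)) [hQ : Q.IsPrime] (hpQ : (p : 𝓞 L) ∈ Q)
    (σ : L ≃ₐ[ℚ] L) (hσ : ∀ x : 𝓞 L, σ • x - x ∈ Q) : σ ∈ fixer K L := by
  by_contra hcon
  -- the two embeddings
  have hKL : IsScalarTower ℚ K L := IsScalarTower.of_algebraMap_eq' (Subsingleton.elim _ _)
  let ι : K →ₐ[ℚ] L := IsScalarTower.toAlgHom ℚ K L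
  let φ : K →ₐ[ℚ] L := (σ : L →ₐ[ℚ] L).comp ι
  have hne : φ ≠ ι := by
    intro h
    apply hcon
    intro x
    exact DFunLike.congr_fun h x
  -- an embedding into the complex numbers
  obtain ⟨j⟩ : Nonempty (L →+* ℂ) := inferInstance
  let _ : Algebra L ℂ := j.toAlgebra
  have : IsScalarTower ℚ L ℂ := IsScalarTower.of_algebraMap_eq' (Subsingleton.elim _ _)
  have hspl : ∀ x : K, ((minpoly ℚ x).map (algebraMap ℚ L)).Splits := by
    intro x
    have h1 := Normal.splits (inferInstance : Normal ℚ L) (ι x)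
    have h2 := minpoly.algHom_eq ι ι.injective x
    rw [h2] at h1
    exact h1
  let E : (K →ₐ[ℚ] L) ≃ (K →ₐ[ℚ] ℂ) := Algebra.IsAlgebraic.algHomEquivAlgHomOfSplits ℂ L hspl
  let I := Module.Free.ChooseBasisIndex ℤ (𝓞 K)
  have hc : Fintype.card I = Fintype.card (K →ₐ[ℚ] ℂ) := by
    rw [AlgHom.card, ← RingOfIntegers.rank K, Module.finrank_eq_card_chooseBasisIndex]
  let e : I ≃ (K →ₐ[ℚ] ℂ) := Fintype.equivOfCardEq hc
  -- the matrix of integers
  have hint : ∀ (τ : K →ₐ[ℚ] L) (x : 𝓞 K), IsIntegral ℤ (τ (x : K)) := fun τ x =>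
    map_isIntegral_int (τ : K →+* L) (RingOfIntegers.isIntegral_coe x)
  let N : Matrix I I (𝓞 L) := fun a b =>
    ⟨E.symm (e b) (RingOfIntegers.basis K a : K), hint _ _⟩
  have h1 : (algebraMap (𝓞 L) L N.det) ^ 2 = ((discr K : ℤ) : L) := by
    have h2 := Algebra.discr_eq_det_embeddingsMatrixReindex_pow_two (K := ℚ) (L := K) (E := ℂ)
      (integralBasis K) e
    have h3 : Algebra.embeddingsMatrixReindex ℚ ℂ (integralBasis K) e =
        (algebraMap L ℂ).mapMatrix ((algebraMap (𝓞 L) L).mapMatrix N) := by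
      ext a b
      simp only [Algebra.embeddingsMatrixReindex, Algebra.embeddingsMatrix, Matrix.reindex_apply,
        Matrix.submatrix_apply, Matrix.of_apply, Equiv.refl_symm, Equiv.coe_refl, id,
        Equiv.symm_symm, RingHom.mapMatrix_apply, Matrix.map_apply, N]
      have h4 : e b = E (E.symm (e b)) := (E.apply_symm_apply _).symm
      conv_lhs => rw [h4]
      rw [integralBasis_apply]
      rfl
    rw [h3, ← RingHom.map_det, ← RingHom.map_det, ← coe_discr] at h2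
    have h4 : algebraMap L ℂ ((algebraMap (𝓞 L) L N.det) ^ 2) = algebraMap L ℂ ((discr K : ℤ) : L) := by
      rw [map_pow, ← h2]
      simp
    exact (algebraMap L ℂ).injective h4
  have h2 : (N.det) ^ 2 = ((discr K : ℤ) : 𝓞 L) := by
    apply RingOfIntegers.coe_injective
    rw [map_pow, h1]
    simp
  -- two columns agree modulo Q
  have h3 : N.det ∈ Q := by
    rw [← Ideal.Quotient.eq_zero_iff_mem, RingHom.map_det]
    refine Matrix.det_zero_of_column_eq (i := e.symm (E φ)) (j := e.symm (E ι)) ?_ ?_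
    · intro h
      exact hne (E.injective (e.symm.injective h))
    · intro a
      rw [RingHom.mapMatrix_apply, Matrix.map_apply, Matrix.map_apply, Ideal.Quotient.eq]
      have h4 : N a (e.symm (E φ)) - N a (e.symm (E ι)) =
          σ • (algebraMap (𝓞 K) (𝓞 L) (RingOfIntegers.basis K a)) -
            algebraMap (𝓞 K) (𝓞 L) (RingOfIntegers.basis K a) := by
        apply RingOfIntegers.coe_injective
        rw [map_sub, map_sub]
        simp only [N, Equiv.apply_symm_apply, Equiv.symm_apply_apply]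
        rfl
      rw [h4]
      exact hσ _
  have h4 : ((discr K : ℤ) : 𝓞 L) ∈ Q := by
    rw [← h2]
    exact Ideal.pow_mem_of_mem _ h3 2 (by norm_num)
  apply hQ.ne_top
  rw [Ideal.eq_top_iff_one]
  have h5 : IsCoprime (p : ℤ) (discr K) :=
    (Nat.prime_iff_prime_int.mp hp).coprime_iff_not_dvd.mpr hd
  obtain ⟨a, b, hab⟩ := h5
  have h6 : (1 : 𝓞 L) = (a : 𝓞 L) * p + (b : 𝓞 L) * ((discr K : ℤ) : 𝓞 L) := by
    have := congrArg (fun x : ℤ => (x : 𝓞 L)) hab
    push_cast at this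
    exact this.symm
  rw [h6]
  exact Q.add_mem (Q.mul_mem_left _ hpQ) (Q.mul_mem_left _ h4)

/-- the decomposition group acts on the residue field through the powers of Frobenius -/
theorem stab_congr (Q : Ideal (𝓞 L)) [hQ : Q.IsPrime] [Finite (𝓞 L ⧸ Q)] (g : L ≃ₐ[ℚ] L)
    (hg : IsArithFrobAt ℤ g Q) (d : L ≃ₐ[ℚ] L) (hd : d • Q = Q) :
    ∃ k : ℕ, ∀ x : 𝓞 L, d • x - (g ^ k) • x ∈ Q := by
  have hσ' : ∀ y : 𝓞 L, Ideal.Quotient.mk Q (g • y) =
      (Ideal.Quotient.mk Q y) ^ Nat.card (ℤ ⧸ Q.under ℤ) := by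
    intro y
    rw [← map_pow, Ideal.Quotient.eq]
    exact hg y
  have h1 : ∀ (j : ℕ) (y : 𝓞 L), Ideal.Quotient.mk Q ((g ^ j) • y) =
      (Ideal.Quotient.mk Q y) ^ (Nat.card (ℤ ⧸ Q.under ℤ) ^ j) := by
    intro j
    induction j with
    | zero => intro y; simp
    | succ j ih =>
      intro y
      rw [pow_succ', mul_smul, hσ', ih, ← pow_mul, pow_succ]
  have hQm : Q.IsMaximal := Ideal.Quotient.maximal_of_isField _ (Finite.isField_of_domain (𝓞 L ⧸ Q))
  have hPm : (Q.under ℤ).IsMaximal := Ideal.isMaximal_comap_of_isIntegral_of_isMaximal Q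
  let _ := Ideal.Quotient.field Q
  let _ := Ideal.Quotient.field (Q.under ℤ)
  have : Finite (ℤ ⧸ Q.under ℤ) := .of_injective _ Ideal.algebraMap_quotient_injective
  let _ : Fintype (ℤ ⧸ Q.under ℤ) := Fintype.ofFinite _
  obtain ⟨k, hk⟩ := (FiniteField.bijective_frobeniusAlgEquivOfAlgebraic_pow
    (ℤ ⧸ Q.under ℤ) (𝓞 L ⧸ Q)).2
      (Ideal.Quotient.stabilizerHom Q (Q.under ℤ) (L ≃ₐ[ℚ] L) ⟨d, MulAction.mem_stabilizer_iff.mpr hd⟩)
  refine ⟨k, fun x => ?_⟩
  rw [← Ideal.Quotient.eq, h1]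
  have h2 := DFunLike.congr_fun hk (Ideal.Quotient.mk Q x)
  have h3 : (Ideal.Quotient.stabilizerHom Q (Q.under ℤ) (L ≃ₐ[ℚ] L)
      ⟨d, MulAction.mem_stabilizer_iff.mpr hd⟩) (Ideal.Quotient.mk Q x) =
      Ideal.Quotient.mk Q (d • x) := rfl
  rw [h3] at h2
  rw [← h2]
  simp only
  rw [AlgEquiv.coe_pow, FiniteField.coe_frobeniusAlgEquivOfAlgebraic_iterate,
    Nat.card_eq_fintype_card]

/-- the decomposition group lies in `U ⟨g⟩` -/
theorem stab_le [IsGalois ℚ L] (K : Type) [Field K] [NumberField K] [Algebra K L] {p : ℕ}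
    (hp : p.Prime)
    (hd : ¬ (p : ℤ) ∣ discr K) (Q : Ideal (𝓞 L)) [hQ : Q.IsPrime] (hpQ : (p : 𝓞 L) ∈ Q)
    (g : L ≃ₐ[ℚ] L) (hg : IsArithFrobAt ℤ g Q) (d : L ≃ₐ[ℚ] L) (hdQ : d • Q = Q) :
    ∃ u ∈ fixer K L, ∃ k : ℕ, d = u * g ^ k := by
  have hQ0 : Q ≠ ⊥ := by
    rintro rfl
    rw [Ideal.mem_bot] at hpQ
    exact hp.ne_zero (by exact_mod_cast hpQ)
  have : Finite (𝓞 L ⧸ Q) := Ideal.finiteQuotientOfFreeOfNeBot Q hQ0
  obtain ⟨k, hk⟩ := stab_congr Q g hg d hdQ
  refine ⟨d * (g ^ k)⁻¹, inertia_le K hp hd Q hpQ _ fun x => ?_, k, by group⟩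
  have h1 := hk ((g ^ k)⁻¹ • x)
  rw [smul_inv_smul, ← mul_smul] at h1
  exact h1

end Pool.Agent.U218.CT
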