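import Pool.Agent.TH847.LG.EV

/-!
# The packing inequality of Ellenberg and Venkatesh for arbitrary prime factors

The argument of `Pool.Agent.TH847.LG.ev` (starting library) for ideals `P i` of any norm which divide
small positive integers `p i`.
-/

set_option autoImplicit false

namespace Pool.Agent.U218.CT

open NumberField Finset Pool.Agent.TH847.LS Pool.Agent.TH847.LG NumberField.InfinitePlace
open scoped Classical nonZeroDivisors

variable {K : Type} [Field K] [NumberField K]

/-- the packing inequality -/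
theorem ev2 {n : ℕ} (hn : Module.finrank ℚ K = n) {l : ℕ} (hl : 1 ≤ l) (N : ℕ)
    (hN : 2 ^ n * √|(discr K : ℝ)| < N) (ι : Type) [Fintype ι] (p : ι → ℕ) (X : ℕ)
    (P J : ι → (Ideal (𝓞 K))⁰) (hp : ∀ i, 0 < p i ∧ p i ≤ X)
    (hPJ : ∀ i, (P i : Ideal (𝓞 K)) * (J i : Ideal (𝓞 K)) = Ideal.span {((p i : ℕ) : 𝓞 K)})
    (hgood : ∀ i j : ι, i ≠ j → ∀ z : 𝓞 K, z ≠ 0 →
      Ideal.span {z} = (P j : Ideal (𝓞 K)) ^ l * (J i : Ideal (𝓞 K)) ^ l →
      (∀ w : InfinitePlace K, w (z : K) ≤ (150 * (X : ℝ) ^ 2) ^ l) → False) :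
    (Fintype.card ι : ℝ) * (Nat.card {c : ClassGroup (𝓞 K) // c ^ l = 1} : ℝ) ≤
      ∑ J ∈ FI K N, (1 + Real.log ((N : ℝ) / Ideal.absNorm J)) ^ n := by
  have hn0 : 0 < n := by rw [← hn]; exact (Module.finrank_pos (R := ℚ) (M := K))
  have hnr : (0 : ℝ) < n := by exact_mod_cast hn0
  have hlr : (1 : ℝ) ≤ l := by exact_mod_cast hl
  have hnormP : ∀ i, Ideal.absNorm (P i : Ideal (𝓞 K)) ≤ X ^ n ∧
      Ideal.absNorm (J i : Ideal (𝓞 K)) ≤ X ^ n := by
    intro i
    have h1 : Ideal.absNorm (P i : Ideal (𝓞 K)) * Ideal.absNorm (J i : Ideal (𝓞 K)) =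
        p i ^ n := by
      rw [← map_mul, hPJ, Ideal.absNorm_span_natCast, RingOfIntegers.rank, hn]
    have h2 : p i ^ n ≤ X ^ n := Nat.pow_le_pow_left (hp i).2 n
    have h3 : 0 < Ideal.absNorm (P i : Ideal (𝓞 K)) :=
      absNorm_pos (nonZeroDivisors.coe_ne_zero _)
    have h4 : 0 < Ideal.absNorm (J i : Ideal (𝓞 K)) :=
      absNorm_pos (nonZeroDivisors.coe_ne_zero _)
    constructor
    · calc _ ≤ Ideal.absNorm (P i : Ideal (𝓞 K)) * Ideal.absNorm (J i : Ideal (𝓞 K)) :=
            Nat.le_mul_of_pos_right _ h4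
        _ ≤ _ := by rw [h1]; exact h2
    · calc _ ≤ Ideal.absNorm (P i : Ideal (𝓞 K)) * Ideal.absNorm (J i : Ideal (𝓞 K)) :=
            Nat.le_mul_of_pos_left _ h3
        _ ≤ _ := by rw [h1]; exact h2
  have hA : ∀ c : {c : ClassGroup (𝓞 K) // c ^ l = 1}, ∃ (A : (Ideal (𝓞 K))⁰)
      (γ : 𝓞 K), ClassGroup.mk0 A = c.1 ∧
      (A : Ideal (𝓞 K)) ^ l = Ideal.span {γ} ∧ γ ≠ 0 ∧
      ∀ w : InfinitePlace K, |Lw w (γ : K)| ≤ 2 * l :=
    fun c => exists_rep hl c.1 c.2
  choose A γ hA1 hA2 hA3 hA4 using hA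
  have key := pack hn N hN (ι × {c : ClassGroup (𝓞 K) // c ^ l = 1})
    (fun i => A i.2 * P i.1) (by
      rintro ⟨i, c⟩ ⟨j, c'⟩ a b ha hb hab hw
      simp only [Submonoid.coe_mul] at hab
      have haK : (a : K) ≠ 0 := by exact_mod_cast ha
      have hbK : (b : K) ≠ 0 := by exact_mod_cast hb
      have hγK : (γ c : K) ≠ 0 := by exact_mod_cast hA3 c
      have hγK' : (γ c' : K) ≠ 0 := by exact_mod_cast hA3 c'
      have hpK : ((p i : ℕ) : K) ≠ 0 := by exact_mod_cast (hp i).1.ne'
      have hpq : i = j := by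
        by_contra hne
        -- the l-th power
        have e1 : Ideal.span {a ^ l * γ c'} * ((P j : Ideal (𝓞 K)) ^ l * (J i : Ideal (𝓞 K)) ^ l) =
            Ideal.span {b ^ l * γ c * (p i : 𝓞 K) ^ l} := by
          have e2 := congrArg (fun I => I ^ l * (J i : Ideal (𝓞 K)) ^ l) hab
          simp only [mul_pow, Ideal.span_singleton_pow, hA2] at e2
          rw [← Ideal.span_singleton_mul_span_singleton, ← Ideal.span_singleton_mul_span_singleton,
            ← Ideal.span_singleton_mul_span_singleton, ← Ideal.span_singleton_pow (p i : 𝓞 K),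
            ← hPJ i, mul_pow]
          calc _ = Ideal.span {a ^ l} * (Ideal.span {γ c'} * (P j : Ideal (𝓞 K)) ^ l) *
                (J i : Ideal (𝓞 K)) ^ l := by ring
            _ = Ideal.span {b ^ l} * (Ideal.span {γ c} * (P i : Ideal (𝓞 K)) ^ l) *
                (J i : Ideal (𝓞 K)) ^ l := e2
            _ = _ := by ring
        have hden : a ^ l * γ c' ≠ 0 := mul_ne_zero (pow_ne_zero _ ha) (hA3 c')
        have hdvd : a ^ l * γ c' ∣ b ^ l * γ c * (p i : 𝓞 K) ^ l := by
          rw [← Ideal.span_singleton_le_span_singleton, ← e1]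
          exact Ideal.mul_le_left
        obtain ⟨z, hz⟩ := hdvd
        have hzspan : Ideal.span {z} = (P j : Ideal (𝓞 K)) ^ l * (J i : Ideal (𝓞 K)) ^ l := by
          rw [hz, ← Ideal.span_singleton_mul_span_singleton (a ^ l * γ c')] at e1
          have hne0 : Ideal.span {a ^ l * γ c'} ≠ (0 : Ideal (𝓞 K)) := by
            rw [Ne, Ideal.zero_eq_bot, Ideal.span_singleton_eq_bot]
            exact hden
          exact (mul_left_cancel₀ hne0 e1).symm
        have hz0 : z ≠ 0 := by
          rintro rfl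
          rw [mul_zero] at hz
          have : (b ^ l * γ c * (p i : 𝓞 K) ^ l) ≠ 0 := by
            refine mul_ne_zero (mul_ne_zero (pow_ne_zero _ hb) (hA3 c)) (pow_ne_zero _ ?_)
            exact_mod_cast (hp i).1.ne'
          exact this hz
        have hzK : (z : K) ≠ 0 := by exact_mod_cast hz0
        refine hgood i j hne z hz0 hzspan ?_
        -- the norm of z
        have hX0 : 0 < X := lt_of_lt_of_le (hp i).1 (hp i).2
        have hXr : (0 : ℝ) < X := by exact_mod_cast hX0
        have hnz : (Algebra.norm ℤ z).natAbs ≤ ((X ^ 2) ^ l) ^ n := by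
          rw [← Ideal.absNorm_span_singleton, hzspan, map_mul, map_pow, map_pow]
          calc _ ≤ (X ^ n) ^ l * (X ^ n) ^ l :=
                Nat.mul_le_mul (Nat.pow_le_pow_left (hnormP j).1 l)
                  (Nat.pow_le_pow_left (hnormP i).2 l)
            _ = ((X ^ 2) ^ l) ^ n := by
                rw [← pow_mul, ← pow_add, ← pow_mul, ← pow_mul]
                congr 1
                ring
        have hnz0 : 0 < (Algebra.norm ℤ z).natAbs := by
          rw [Nat.pos_iff_ne_zero, Ne, Int.natAbs_eq_zero, Algebra.norm_eq_zero_iff]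
          exact hz0
        have hnz' : |((Algebra.norm ℚ (z : K) : ℚ) : ℝ)| =
            (((Algebra.norm ℤ z).natAbs : ℕ) : ℝ) := by
          rw [← Algebra.coe_norm_int, Nat.cast_natAbs]
          push_cast
          rfl
        -- the size of z at the places
        have hLz : ∀ w : InfinitePlace K, Lw w (z : K) ≤ 5 * l := by
          intro w
          have h1 : Lw w ((a ^ l * γ c' * z : 𝓞 K) : K) =
              Lw w ((b ^ l * γ c * (p i : 𝓞 K) ^ l : 𝓞 K) : K) := by rw [hz]
          push_cast at h1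
          rw [Lw_mul w (mul_ne_zero (pow_ne_zero _ haK) hγK') hzK,
            Lw_mul w (pow_ne_zero _ haK) hγK', Lw_mul w (mul_ne_zero (pow_ne_zero _ hbK) hγK)
              (pow_ne_zero _ hpK), Lw_mul w (pow_ne_zero _ hbK) hγK, Lw_pow, Lw_pow, Lw_pow,
            Lw_natCast, mul_zero, add_zero] at h1
          have h2 := abs_lt.mp (hw w)
          have h3 := abs_le.mp (hA4 c w)
          have h4 := abs_le.mp (hA4 c' w)
          have h5 : (l : ℝ) * (Lw w (b : K) - Lw w (a : K)) ≤ l * 1 :=
            mul_le_mul_of_nonneg_left (by linarith) (by linarith)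
          nlinarith
        intro w
        have h1 := hLz w
        unfold Lw at h1
        rw [hnz', hn] at h1
        have hpos : (0 : ℝ) < (((Algebra.norm ℤ z).natAbs : ℕ) : ℝ) := by exact_mod_cast hnz0
        have h2 : Real.log (((Algebra.norm ℤ z).natAbs : ℕ) : ℝ) ≤
            n * (l * Real.log ((X : ℝ) ^ 2)) := by
          have : (((Algebra.norm ℤ z).natAbs : ℕ) : ℝ) ≤ (((X : ℝ) ^ 2) ^ l) ^ n := by
            exact_mod_cast hnz
          have h3 := Real.log_le_log hpos this
          rw [Real.log_pow, Real.log_pow] at h3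
          exact h3
        have h3 : Real.log (((Algebra.norm ℤ z).natAbs : ℕ) : ℝ) / n ≤
            l * Real.log ((X : ℝ) ^ 2) := by
          rw [div_le_iff₀ hnr]
          linarith
        have h4 : Real.log (w (z : K)) ≤ Real.log ((150 * (X : ℝ) ^ 2) ^ l) := by
          rw [Real.log_pow, Real.log_mul (by norm_num) (by positivity)]
          have h5 : (5 : ℝ) ≤ Real.log 150 := by
            rw [Real.le_log_iff_exp_le (by norm_num)]
            have h6 : Real.exp 1 < 2.7182818286 := Real.exp_one_lt_d9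
            have h7 : Real.exp 5 = Real.exp 1 ^ 5 := by
              rw [← Real.exp_nat_mul]; norm_num
            rw [h7]
            have h8 : Real.exp 1 ^ 5 ≤ (2.7182818286 : ℝ) ^ 5 := by
              gcongr
            refine h8.trans ?_
            norm_num
          nlinarith
        exact (Real.log_le_log_iff (w_pos w hzK) (by positivity)).mp h4
      subst hpq
      have hc : c = c' := by
        have hP0 : (P i : Ideal (𝓞 K)) ≠ 0 := nonZeroDivisors.coe_ne_zero _
        have e1 : Ideal.span {a} * (A c' : Ideal (𝓞 K)) =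
            Ideal.span {b} * (A c : Ideal (𝓞 K)) := by
          rw [← mul_assoc, ← mul_assoc] at hab
          exact mul_right_cancel₀ hP0 hab
        have e2 : ClassGroup.mk0 (A c') = ClassGroup.mk0 (A c) := by
          rw [ClassGroup.mk0_eq_mk0_iff]
          exact ⟨a, b, ha, hb, e1⟩
        rw [hA1, hA1] at e2
        exact Subtype.ext e2.symm
      rw [hc])
  rw [Fintype.card_prod] at key
  rw [Nat.card_eq_fintype_card]
  push_cast at key
  exact key

end Pool.Agent.U218.CT
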