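import Pool.Agent.TH847.LG.Disc

/-!
# The field generated by the small integers of a number field
-/

set_option autoImplicit false

namespace Pool.Agent.U218.CT

open NumberField Finset IntermediateField
open scoped Classical nonZeroDivisors

variable (K : Type) [Field K] [NumberField K]

/-- the subfield generated by the integers all of whose conjugates have absolute value `≤ T` -/
noncomputable def smallField (T : ℝ) : IntermediateField ℚ K :=
  IntermediateField.adjoin ℚ {x : K | ∃ y : 𝓞 K, (y : K) = x ∧ ∀ w : InfinitePlace K, w x ≤ T}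

variable {K}

theorem mem_smallField {T : ℝ} (y : 𝓞 K) (hy : ∀ w : InfinitePlace K, w (y : K) ≤ T) :
    (y : K) ∈ smallField K T :=
  IntermediateField.subset_adjoin _ _ ⟨y, rfl, hy⟩

/-- a choice of an integer avoiding finitely many values -/
theorem exists_avoid (s : Finset ℂ) (m : ℕ) (hm : s.card ≤ m) :
    ∃ c : ℕ, c ≤ m ∧ (c : ℂ) ∉ s := by
  by_contra hcon
  push Not at hcon
  have h1 : ((Finset.range (m + 1)).image (fun c : ℕ => (c : ℂ))) ⊆ s := by
    intro x hx
    rw [mem_image] at hx
    obtain ⟨c, hc, rfl⟩ := hx
    exact hcon c (by rw [mem_range] at hc; omega)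
  have h2 := Finset.card_le_card h1
  rw [Finset.card_image_of_injective _ Nat.cast_injective, card_range] at h2
  omega

theorem exists_gen {n : ℕ} (hn : Module.finrank ℚ K = n) {T : ℝ} (hT : 0 ≤ T)
    (htop : smallField K T = ⊤) : ∃ z : 𝓞 K, ℚ⟮(z : K)⟯ = ⊤ ∧
      ∀ w : InfinitePlace K, w (z : K) ≤ n * (n * n) * T := by
  have hcard : Fintype.card (K →ₐ[ℚ] ℂ) = n := by rw [AlgHom.card, hn]
  have key : ∀ k : ℕ, ∃ z : 𝓞 K, (∀ w : InfinitePlace K, w (z : K) ≤ k * (n * n) * T) ∧
      (Function.Injective (fun φ : K →ₐ[ℚ] ℂ => φ (z : K)) ∨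
        k + 1 ≤ ((Finset.univ : Finset (K →ₐ[ℚ] ℂ)).image (fun φ => φ (z : K))).card) := by
    intro k
    induction k with
    | zero =>
      refine ⟨0, fun w => by simp, Or.inr ?_⟩
      rw [zero_add, Nat.succ_le_iff, Finset.card_pos, Finset.image_nonempty]
      exact Finset.univ_nonempty_iff.mpr (by
        rw [← Fintype.card_pos_iff, hcard, ← hn]
        exact Module.finrank_pos)
    | succ k ih =>
      obtain ⟨z, hz1, hz2⟩ := ih
      have hmono : ∀ w : InfinitePlace K, w (z : K) ≤ (k + 1 : ℕ) * (n * n) * T := by
        intro w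
        refine (hz1 w).trans ?_
        have : (k : ℝ) ≤ (k + 1 : ℕ) := by push_cast; linarith
        gcongr
      by_cases hinj : Function.Injective (fun φ : K →ₐ[ℚ] ℂ => φ (z : K))
      · exact ⟨z, hmono, Or.inl hinj⟩
      have hz3 := hz2.resolve_left hinj
      rw [Function.Injective] at hinj
      push Not at hinj
      obtain ⟨σ, τ, hστ, hne⟩ := hinj
      -- a small integer separating the two embeddings
      obtain ⟨s, hs1, hs2⟩ : ∃ s : 𝓞 K, (∀ w : InfinitePlace K, w (s : K) ≤ T) ∧
          σ (s : K) ≠ τ (s : K) := by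
        by_contra hcon
        push Not at hcon
        apply hne
        have h1 : ∀ x ∈ smallField K T, σ x = τ x := by
          intro x hx
          unfold smallField at hx
          induction hx using IntermediateField.adjoin_induction with
          | mem x hx =>
            obtain ⟨y, rfl, hy⟩ := hx
            exact hcon y hy
          | algebraMap q => rw [AlgHom.commutes, AlgHom.commutes]
          | add x y _ _ hx hy => rw [map_add, map_add, hx, hy]
          | inv x _ hx => rw [map_inv₀, map_inv₀, hx]
          | mul x y _ _ hx hy => rw [map_mul, map_mul, hx, hy]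
        ext x
        exact h1 x (by rw [htop]; trivial)
      -- the bad multiples
      set bad : Finset ℂ := (Finset.univ : Finset ((K →ₐ[ℚ] ℂ) × (K →ₐ[ℚ] ℂ))).image
        (fun φ => -(φ.1 (z : K) - φ.2 (z : K)) / (φ.1 (s : K) - φ.2 (s : K))) with hbad
      have hbc : bad.card ≤ n * n := by
        refine Finset.card_image_le.trans ?_
        rw [Finset.card_univ, Fintype.card_prod, hcard]
      obtain ⟨c, hc1, hc2⟩ := exists_avoid bad (n * n) hbc
      have hfin : ∀ φ ψ : K →ₐ[ℚ] ℂ, φ (z : K) + c * φ (s : K) = ψ (z : K) + c * ψ (s : K) →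
          φ (z : K) = ψ (z : K) ∧ (c ≠ 0 → φ (s : K) = ψ (s : K)) := by
        intro φ ψ h
        by_cases h1 : φ (s : K) = ψ (s : K)
        · refine ⟨?_, fun _ => h1⟩
          rw [h1] at h
          exact add_right_cancel h
        · exfalso
          apply hc2
          rw [hbad, mem_image]
          refine ⟨(φ, ψ), mem_univ _, ?_⟩
          have h2 : φ (s : K) - ψ (s : K) ≠ 0 := sub_ne_zero.mpr h1
          rw [div_eq_iff h2]
          linear_combination -h
      have hc0 : c ≠ 0 := by
        rintro rfl
        apply hc2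
        rw [hbad, mem_image]
        refine ⟨(σ, τ), mem_univ _, ?_⟩
        rw [hστ]
        simp
      refine ⟨z + c * s, ?_, Or.inr ?_⟩
      · intro w
        have e1 : ((z + c * s : 𝓞 K) : K) = (z : K) + (c : K) * (s : K) := by push_cast; rfl
        rw [e1]
        have h1 : w ((c : K) * (s : K)) = c * w (s : K) := by
          rw [map_mul]
          congr 1
          rw [← InfinitePlace.norm_embedding_eq w, map_natCast]
          exact Complex.norm_natCast c
        have h2 : w ((z : K) + (c : K) * (s : K)) ≤ w (z : K) + w ((c : K) * (s : K)) :=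
          w.1.add_le _ _
        rw [h1] at h2
        have h3 : (c : ℝ) * w (s : K) ≤ (n * n) * T := by
          have : (c : ℝ) ≤ n * n := by exact_mod_cast hc1
          have h4 := hs1 w
          have h5 : 0 ≤ w (s : K) := apply_nonneg _ _
          gcongr
        have h6 := hz1 w
        push_cast
        nlinarith
      · set f' : (K →ₐ[ℚ] ℂ) → ℂ := fun φ => φ ((z + c * s : 𝓞 K) : K) with hf'
        set f : (K →ₐ[ℚ] ℂ) → ℂ := fun φ => φ (z : K) with hf
        have e1 : ∀ φ : K →ₐ[ℚ] ℂ, f' φ = φ (z : K) + c * φ (s : K) := by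
          intro φ
          simp only [hf']
          have e1 : ((z + c * s : 𝓞 K) : K) = (z : K) + (c : K) * (s : K) := by push_cast; rfl
          rw [e1, map_add, map_mul, map_natCast]
        have hff : ∀ φ ψ, f' φ = f' ψ → f φ = f ψ ∧ φ (s : K) = ψ (s : K) := by
          intro φ ψ h
          rw [e1, e1] at h
          exact ⟨(hfin φ ψ h).1, (hfin φ ψ h).2 hc0⟩
        -- the factor map
        let g : ℂ → ℂ := fun y => if h : ∃ φ, f' φ = y then f h.choose else 0
        have hg : ∀ φ, g (f' φ) = f φ := by
          intro φ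
          have h : ∃ ψ, f' ψ = f' φ := ⟨φ, rfl⟩
          simp only [g, dif_pos h]
          exact (hff _ _ h.choose_spec).1
        have h1 : (Finset.univ.image f) = (Finset.univ.image f').image g := by
          rw [Finset.image_image]
          congr 1
          ext φ
          exact (hg φ).symm
        have h2 : (Finset.univ.image f).card < (Finset.univ.image f').card := by
          rw [h1]
          refine lt_of_le_of_ne Finset.card_image_le ?_
          intro h
          rw [Finset.card_image_iff] at h
          have h3 := h (x₁ := f' σ) (by simp) (x₂ := f' τ) (by simp) (by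
            rw [hg, hg]; exact hστ)
          exact hs2 (hff σ τ h3).2
        change k + 1 + 1 ≤ (Finset.univ.image f').card
        have h4 : k + 1 ≤ (Finset.univ.image f).card := hz3
        omega
  obtain ⟨z, hz1, hz2⟩ := key n
  refine ⟨z, ?_, hz1⟩
  rw [Field.primitive_element_iff_algHom_eq_of_eval' ℚ ℂ (fun x => IsAlgClosed.splits _) (z : K)]
  refine hz2.resolve_right ?_
  intro h
  have h1 : ((Finset.univ : Finset (K →ₐ[ℚ] ℂ)).image (fun φ => φ (z : K))).card ≤ n := by
    refine Finset.card_image_le.trans ?_
    rw [Finset.card_univ, hcard]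
  omega

/-- if the small integers generate the field, then the discriminant is small -/
theorem discr_le_of_top {n : ℕ} (hn : Module.finrank ℚ K = n) {T : ℝ} (hT : 0 ≤ T)
    (htop : smallField K T = ⊤) :
    |(discr K : ℝ)| ≤ (2 * (n * (n * n) * T)) ^ (n * (n - 1)) := by
  obtain ⟨z, hz, hw⟩ := exists_gen hn hT htop
  exact Pool.Agent.TH847.LG.disc_bound hn z hz hw

end Pool.Agent.U218.CT
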