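import Mathlib

/-!
# Many small primes not dividing a given integer
-/

set_option autoImplicit false

namespace Pool.Agent.U218.CT

open Finset
open scoped Classical

/-- the number of primes up to `n`, power form -/
theorem pi_lower (η : ℝ) (h0 : 0 < η) (h1 : η < 1) (n : ℕ) :
    η / 4 * (n : ℝ) ^ (1 - η) ≤ Nat.primeCounting n + 8 := by
  by_cases hn : n < 8
  · have h2 : (n : ℝ) ^ (1 - η) ≤ 8 := by
      rcases Nat.eq_zero_or_pos n with rfl | hpos
      · rw [Nat.cast_zero, Real.zero_rpow (by linarith)]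
        norm_num
      · have h3 : (1 : ℝ) ≤ n := by exact_mod_cast hpos
        calc (n : ℝ) ^ (1 - η) ≤ (n : ℝ) ^ (1 : ℝ) :=
              Real.rpow_le_rpow_of_exponent_le h3 (by linarith)
          _ ≤ 8 := by
              rw [Real.rpow_one]
              exact_mod_cast hn.le
    have h4 : (0 : ℝ) ≤ (n : ℝ) ^ (1 - η) := by positivity
    have h5 : (0 : ℝ) ≤ Nat.primeCounting n := by positivity
    nlinarith
  · push Not at hn
    have hnr : (8 : ℝ) ≤ n := by exact_mod_cast hn
    have hlog : 0 < Real.log n := Real.log_pos (by linarith)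
    have h2 := Chebyshev.pi_ge n
    have he : Real.exp 1 < 2.7182818286 := Real.exp_one_lt_d9
    have he' : 2.7182818283 < Real.exp 1 := Real.exp_one_gt_d9
    have h3 : Real.log ((n : ℝ) + 1) ≤ ((n : ℝ) + 1) * 0.368 := by
      have h4 := Real.log_le_sub_one_of_pos (show 0 < ((n : ℝ) + 1) / Real.exp 1 by positivity)
      rw [Real.log_div (by positivity) (by positivity), Real.log_exp] at h4
      have h5 : ((n : ℝ) + 1) / Real.exp 1 ≤ ((n : ℝ) + 1) * 0.368 := by
        rw [div_le_iff₀ (by positivity)]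
        nlinarith
      linarith
    have hl2 : 0.6931471803 < Real.log 2 := Real.log_two_gt_d9
    have h4 : (n : ℝ) / 4 ≤ n * Real.log 2 - Real.log (n + 1) := by
      nlinarith
    have h5 : (n : ℝ) / 4 / Real.log n ≤ Nat.primeCounting n :=
      le_trans (by gcongr) h2
    have h6 : Real.log n ≤ (n : ℝ) ^ η / η := Real.log_le_rpow_div (by linarith) h0
    have h7 : η / 4 * (n : ℝ) ^ (1 - η) ≤ (n : ℝ) / 4 / Real.log n := by
      rw [le_div_iff₀ hlog]
      calc η / 4 * (n : ℝ) ^ (1 - η) * Real.log n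
          ≤ η / 4 * (n : ℝ) ^ (1 - η) * ((n : ℝ) ^ η / η) := by gcongr
        _ = (n : ℝ) / 4 := by
            have h8 : (n : ℝ) ^ (1 - η) * (n : ℝ) ^ η = n := by
              rw [← Real.rpow_add (by linarith)]
              simp
            field_simp
            linarith
    linarith

/-- a logarithm against a power -/
theorem log_le_pow_add (a c : ℝ) (ha : 0 < a) (hc : 0 < c) : ∃ K : ℝ, 0 ≤ K ∧ ∀ D : ℝ, 1 ≤ D →
    Real.log D ≤ c * D ^ a + K := by
  refine ⟨(2 / a) ^ 2 / (4 * c), by positivity, fun D hD => ?_⟩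
  have h1 : Real.log D ≤ D ^ (a / 2) / (a / 2) := Real.log_le_rpow_div (by linarith) (by positivity)
  have h2 : D ^ a = (D ^ (a / 2)) ^ 2 := by
    rw [← Real.rpow_natCast, ← Real.rpow_mul (by linarith)]
    congr 1
    push_cast
    ring
  set t := D ^ (a / 2) with ht
  have h3 : t / (a / 2) = (2 / a) * t := by field_simp
  rw [h3] at h1
  rw [h2]
  refine h1.trans ?_
  set b := 2 / a with hb
  have h4 : c * t ^ 2 + b ^ 2 / (4 * c) - b * t = c * (t - b / (2 * c)) ^ 2 := by
    field_simp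
    ring
  have h5 : 0 ≤ c * (t - b / (2 * c)) ^ 2 := by positivity
  linarith

/-- many primes below `c D^δ` do not divide `D` -/
theorem many_primes (δ c a : ℝ) (hδ : 0 < δ) (hc : 0 < c) (ha : 0 < a) (haδ : a < δ) :
    ∃ c' : ℝ, 0 < c' ∧ ∀ D : ℕ, 1 ≤ D →
      c' * (D : ℝ) ^ a ≤
        max 1 ((((Finset.range (⌊c * (D : ℝ) ^ δ⌋₊ + 1)).filter
          (fun p => p.Prime ∧ ¬ p ∣ D)).card : ℕ) : ℝ) := by
  set η : ℝ := 1 - a / δ with hη
  have hη0 : 0 < η := by
    rw [hη]
    have : a / δ < 1 := by rw [div_lt_one hδ]; exact haδ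
    linarith
  have hη1 : η < 1 := by
    rw [hη]
    have : 0 < a / δ := by positivity
    linarith
  have hη2 : 1 - η = a / δ := by rw [hη]; ring
  set c1 : ℝ := η / 4 * c ^ (a / δ) with hc1
  have hc10 : 0 < c1 := by positivity
  obtain ⟨K, hK0, hK⟩ := log_le_pow_add a (c1 / 2 * Real.log 2) ha
    (by have := Real.log_pos (show (1 : ℝ) < 2 by norm_num); positivity)
  set M : ℝ := 1 + (8 + η / 4 + K / Real.log 2) with hM
  have hl2 : 0 < Real.log 2 := Real.log_pos (by norm_num)
  have hM0 : 0 < M := by positivity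
  refine ⟨c1 / 2 / M, by positivity, fun D hD => ?_⟩
  have hDr : (1 : ℝ) ≤ D := by exact_mod_cast hD
  set n := ⌊c * (D : ℝ) ^ δ⌋₊ with hn
  set S := (Finset.range (n + 1)).filter (fun p => p.Prime ∧ ¬ p ∣ D) with hS
  -- the number of primes up to n
  have h1 := pi_lower η hη0 hη1 n
  rw [hη2] at h1
  have h2 : c ^ (a / δ) * (D : ℝ) ^ a ≤ (n : ℝ) ^ (a / δ) + 1 := by
    have h3 : c * (D : ℝ) ^ δ ≤ n + 1 := (Nat.lt_floor_add_one _).le
    have h4 : (c * (D : ℝ) ^ δ) ^ (a / δ) ≤ ((n : ℝ) + 1) ^ (a / δ) := by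
      gcongr
    have h5 : (c * (D : ℝ) ^ δ) ^ (a / δ) = c ^ (a / δ) * (D : ℝ) ^ a := by
      rw [Real.mul_rpow hc.le (by positivity), ← Real.rpow_mul (by linarith)]
      congr 2
      field_simp
    have h6 : ((n : ℝ) + 1) ^ (a / δ) ≤ (n : ℝ) ^ (a / δ) + 1 ^ (a / δ) :=
      Real.rpow_add_le_add_rpow (by positivity) (by norm_num) (by positivity)
        (by rw [div_le_one hδ]; exact haδ.le)
    rw [Real.one_rpow] at h6
    linarith
  have h3 : Nat.primeCounting n ≤ S.card + D.primeFactors.card := by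
    have h4 : Nat.primeCounting n = ((Finset.range (n + 1)).filter Nat.Prime).card := by
      rw [Nat.primeCounting, Nat.primeCounting', Nat.count_eq_card_filter_range]
    rw [h4]
    have h5 : (Finset.range (n + 1)).filter Nat.Prime ⊆ S ∪ D.primeFactors := by
      intro p hp
      rw [mem_filter] at hp
      rw [mem_union, hS, mem_filter, Nat.mem_primeFactors]
      by_cases h6 : p ∣ D
      · exact Or.inr ⟨hp.2, h6, by omega⟩
      · exact Or.inl ⟨hp.1, hp.2, h6⟩
    exact (Finset.card_le_card h5).trans (Finset.card_union_le _ _)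
  have h4 : (D.primeFactors.card : ℝ) ≤ Real.log D / Real.log 2 := by
    rw [le_div_iff₀ hl2, ← Real.log_pow]
    refine Real.log_le_log (by positivity) ?_
    have h5 : 2 ^ D.primeFactors.card ≤ D := by
      calc 2 ^ D.primeFactors.card ≤ ∏ p ∈ D.primeFactors, p := by
            refine Finset.pow_card_le_prod _ _ _ fun p hp => ?_
            exact (Nat.prime_of_mem_primeFactors hp).two_le
        _ ≤ D := Nat.le_of_dvd (by omega) (Nat.prod_primeFactors_dvd D)
    exact_mod_cast h5
  have h5 := hK D hDr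
  have h6 : (D.primeFactors.card : ℝ) ≤ c1 / 2 * (D : ℝ) ^ a + K / Real.log 2 := by
    refine h4.trans ?_
    rw [div_le_iff₀ hl2]
    refine h5.trans (le_of_eq ?_)
    field_simp
  have h7 : (Nat.primeCounting n : ℝ) ≤ S.card + D.primeFactors.card := by exact_mod_cast h3
  have h8 : c1 * (D : ℝ) ^ a ≤ η / 4 * ((n : ℝ) ^ (a / δ) + 1) := by
    rw [hc1, mul_assoc]
    gcongr
  have h9 : c1 / 2 * (D : ℝ) ^ a ≤ S.card + (8 + η / 4 + K / Real.log 2) := by
    linarith
  have h10 : (S.card : ℝ) + (8 + η / 4 + K / Real.log 2) ≤ max 1 (S.card : ℝ) * M := by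
    have h11 : (S.card : ℝ) ≤ max 1 (S.card : ℝ) := le_max_right _ _
    have h12 : 1 ≤ max 1 (S.card : ℝ) := le_max_left _ _
    have h13 : 0 ≤ (8 + η / 4 + K / Real.log 2) := by positivity
    rw [hM]
    nlinarith
  calc c1 / 2 / M * (D : ℝ) ^ a = (c1 / 2 * (D : ℝ) ^ a) / M := by ring
    _ ≤ max 1 (S.card : ℝ) := by
        rw [div_le_iff₀ hM0]
        linarith

end Pool.Agent.U218.CT
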