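import Pool.Agent.U218.CT.EV
import Pool.Agent.U218.CT.Bound
import Pool.Agent.U218.CT.Gen
import Pool.Agent.U218.CT.Pr

/-!
# The pointwise bound under a splitting condition
-/

set_option autoImplicit false

namespace Pool.Agent.U218.CT

open NumberField Finset Pool.Agent.TH847.LS Pool.Agent.TH847.LG NumberField.InfinitePlace
open scoped Classical nonZeroDivisors

/-- over every proper subfield, every prime number `p` which does not divide the discriminant has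
two different primes with the same restriction -/
def TwoPrimes (K : Type) [Field K] [NumberField K] : Prop :=
  ∀ F : IntermediateField ℚ K, F ≠ ⊤ → ∀ p : ℕ, p.Prime → ¬ (p : ℤ) ∣ discr K →
    ∃ P P' : Ideal (𝓞 K), P.IsPrime ∧ P'.IsPrime ∧ P ≠ P' ∧ (p : 𝓞 K) ∈ P ∧ (p : 𝓞 K) ∈ P' ∧
      ∀ x ∈ P, (x : K) ∈ F → x ∈ P'

/-- an integer of a small field cannot generate the ideal in question -/
theorem no_gen {K : Type} [Field K] [NumberField K] {l : ℕ} (hl : 1 ≤ l)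
    (F : IntermediateField ℚ K) {p q : ℕ} (hp : p.Prime) (hq : q.Prime) (hpq : p ≠ q)
    (P P' J : Ideal (𝓞 K)) (hP : P.IsPrime) (hP' : P'.IsPrime) (hne : P ≠ P')
    (hpP : (p : 𝓞 K) ∈ P) (hpP' : (p : 𝓞 K) ∈ P') (hF : ∀ x ∈ P, (x : K) ∈ F → x ∈ P')
    (hJ : (q : 𝓞 K) ∈ J) (z : 𝓞 K) (hz : Ideal.span {z} = P ^ l * J ^ l) (hzF : (z : K) ∈ F) :
    False := by
  have hP0 : P ≠ ⊥ := by
    rintro rfl
    rw [Ideal.mem_bot] at hpP
    exact hp.ne_zero (by exact_mod_cast hpP)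
  have hPm : P.IsMaximal := hP.isMaximal hP0
  have h1 : z ∈ P := by
    have h2 : z ∈ Ideal.span {z} := Ideal.mem_span_singleton_self z
    rw [hz] at h2
    have h3 : z ∈ P ^ l := Ideal.mul_le_left h2
    have h4 : P ^ l ≤ P := Ideal.pow_le_self (by omega)
    exact h4 h3
  have h2 := hF z h1 hzF
  have h3 : P ^ l * J ^ l ≤ P' := by
    rw [← hz, Ideal.span_singleton_le_iff_mem]
    exact h2
  rcases (hP'.mul_le).mp h3 with h4 | h4
  · have h5 : P ≤ P' := (Ideal.IsPrime.pow_le_iff (hP := hP') (by omega)).mp h4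
    exact hne (hPm.eq_of_le hP'.ne_top h5)
  · have h5 : J ≤ P' := (Ideal.IsPrime.pow_le_iff (hP := hP') (by omega)).mp h4
    have h6 : (q : 𝓞 K) ∈ P' := h5 hJ
    apply hP'.ne_top
    rw [Ideal.eq_top_iff_one]
    have h7 : IsCoprime (p : ℤ) (q : ℤ) := by
      rw [Nat.isCoprime_iff_coprime]
      exact (Nat.coprime_primes hp hq).mpr hpq
    obtain ⟨a, b, hab⟩ := h7
    have h8 : (1 : 𝓞 K) = (a : 𝓞 K) * p + (b : 𝓞 K) * q := by
      have := congrArg (fun x : ℤ => (x : 𝓞 K)) hab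
      push_cast at this
      exact this.symm
    rw [h8]
    exact P'.add_mem (P'.mul_mem_left _ hpP') (P'.mul_mem_left _ h6)

theorem const_bound (n l : ℕ) (hn : 2 ≤ n) (hl : 1 ≤ l) (D : ℝ) (hD : 1 ≤ D) (X : ℝ) (hX0 : 0 ≤ X)
    (hX : X ≤ (1 / (4 * (n : ℝ) ^ 3 * 150 ^ l)) * D ^ (1 / (2 * l * n * (n - 1)) : ℝ)) :
    (2 * (n * (n * n) * (150 * X ^ 2) ^ l)) ^ (n * (n - 1)) < D := by
  have hnr : (2 : ℝ) ≤ n := by exact_mod_cast hn
  have hlr : (1 : ℝ) ≤ l := by exact_mod_cast hl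
  set c : ℝ := 1 / (4 * (n : ℝ) ^ 3 * 150 ^ l) with hc
  have hn3 : (1 : ℝ) ≤ (n : ℝ) ^ 3 := one_le_pow₀ (by linarith)
  have h150 : (1 : ℝ) ≤ 150 ^ l := one_le_pow₀ (by norm_num)
  have hc0 : 0 < c := by positivity
  have hc1 : c ≤ 1 := by
    rw [hc, div_le_one (by positivity)]
    nlinarith
  set δ : ℝ := 1 / (2 * l * n * (n - 1)) with hδ
  have hn1 : (0 : ℝ) < n - 1 := by linarith
  have hδ0 : 0 < δ := by positivity
  have hDδ : 0 < D ^ δ := by positivity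
  have h1 : (150 * X ^ 2) ^ l ≤ 150 ^ l * c * D ^ (2 * l * δ) := by
    calc (150 * X ^ 2) ^ l ≤ (150 * (c * D ^ δ) ^ 2) ^ l := by gcongr
      _ = 150 ^ l * c ^ (2 * l) * D ^ (2 * l * δ) := by
          rw [mul_pow, mul_pow, mul_pow, ← pow_mul, ← pow_mul, ← mul_assoc]
          congr 1
          rw [← Real.rpow_natCast, ← Real.rpow_mul (by linarith)]
          congr 1
          push_cast
          ring
      _ ≤ 150 ^ l * c * D ^ (2 * l * δ) := by
          have h2 : c ^ (2 * l) ≤ c := pow_le_of_le_one hc0.le hc1 (by omega)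
          gcongr
  have h2 : 2 * (n * (n * n) * (150 * X ^ 2) ^ l) ≤ D ^ (2 * l * δ) / 2 := by
    calc 2 * (n * (n * n) * (150 * X ^ 2) ^ l)
        ≤ 2 * (n * (n * n) * (150 ^ l * c * D ^ (2 * l * δ))) := by gcongr
      _ = D ^ (2 * l * δ) / 2 := by
          rw [hc]
          field_simp
          ring
  have h3 : 0 < D ^ (2 * l * δ) := by positivity
  have h4 : 2 * (n * (n * n) * (150 * X ^ 2) ^ l) < D ^ (2 * l * δ) := by linarith
  have h5 : 0 ≤ 2 * (n * (n * n) * (150 * X ^ 2) ^ l) := by positivity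
  have h6 : n * (n - 1) ≠ 0 := by
    have : n - 1 ≠ 0 := by omega
    positivity
  calc (2 * (n * (n * n) * (150 * X ^ 2) ^ l)) ^ (n * (n - 1))
      < (D ^ (2 * l * δ)) ^ (n * (n - 1)) := pow_lt_pow_left₀ h4 h5 h6
    _ = D := by
        rw [← Real.rpow_natCast, ← Real.rpow_mul (by linarith)]
        have h7 : 2 * l * δ * ((n * (n - 1) : ℕ) : ℝ) = 1 := by
          have h8 : ((n - 1 : ℕ) : ℝ) = n - 1 := by
            rw [Nat.cast_sub (by omega)]
            simp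
          rw [Nat.cast_mul, h8, hδ]
          field_simp
        rw [h7, Real.rpow_one]

theorem main_bound (n : ℕ) (hn : 2 ≤ n) (l : ℕ) (hl : 1 ≤ l) (ε : ℝ) (hε : 0 < ε) :
    ∃ C : ℝ, ∀ (K : Type) [Field K] [NumberField K], Module.finrank ℚ K = n → TwoPrimes K →
      (Nat.card {c : ClassGroup (𝓞 K) // c ^ l = 1} : ℝ) ≤
        C * |(discr K : ℝ)| ^ (1 / 2 - 1 / (2 * l * n * (n - 1)) + ε : ℝ) := by
  have hnr : (2 : ℝ) ≤ n := by exact_mod_cast hn
  have hlr : (1 : ℝ) ≤ l := by exact_mod_cast hl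
  set c : ℝ := 1 / (4 * (n : ℝ) ^ 3 * 150 ^ l) with hc
  have hc0 : 0 < c := by positivity
  set δ : ℝ := 1 / (2 * l * n * (n - 1)) with hδ
  have hn1 : (0 : ℝ) < n - 1 := by linarith
  have hδ0 : 0 < δ := by positivity
  set ε' : ℝ := min ε δ with hε'
  have hε'0 : 0 < ε' := lt_min hε hδ0
  have hε'1 : ε' ≤ ε := min_le_left _ _
  have hε'2 : ε' ≤ δ := min_le_right _ _
  obtain ⟨C1, hC10, hC1⟩ := W_bound n hn (ε' / 2) (by positivity)
  obtain ⟨c', hc'0, hc'⟩ := many_primes δ c (δ - ε' / 2) hδ0 hc0 (by linarith) (by linarith)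
  refine ⟨C1 / c', ?_⟩
  intro K _ _ hK hTP
  obtain ⟨N, hN, hW⟩ := hC1 K hK
  set D := (discr K).natAbs with hD
  have hDK : |(discr K : ℝ)| = (D : ℝ) := by
    rw [hD, Nat.cast_natAbs]
    push_cast
    rfl
  have hD2 : 2 < D := by
    have := abs_discr_gt_two (K := K) (by rw [hK]; omega)
    rw [Int.abs_eq_natAbs] at this
    exact_mod_cast this
  have hDr : (2 : ℝ) < D := by exact_mod_cast hD2
  have hM := hc' D (by omega)
  set X := ⌊c * (D : ℝ) ^ δ⌋₊ with hX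
  set S := (Finset.range (X + 1)).filter (fun p => p.Prime ∧ ¬ p ∣ D) with hS
  set W := ∑ J ∈ FI K N, (1 + Real.log ((N : ℝ) / Ideal.absNorm J)) ^ n with hWd
  set T := Nat.card {c : ClassGroup (𝓞 K) // c ^ l = 1} with hT
  have hXc : (X : ℝ) ≤ c * (D : ℝ) ^ δ := Nat.floor_le (by positivity)
  -- small integers do not generate
  have hsm : smallField K ((150 * (X : ℝ) ^ 2) ^ l) ≠ ⊤ := by
    intro htop
    have h1 := discr_le_of_top hK (by positivity) htop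
    have h2 := const_bound n l hn hl D (by linarith) X (by positivity) hXc
    rw [hDK] at h1
    linarith
  have hTh : T ≤ Nat.card (ClassGroup (𝓞 K)) :=
    Nat.card_le_card_of_injective _ Subtype.val_injective
  have hT1 : (T : ℝ) ≤ W := by
    have h1 := class_le_n hK N hN
    have h2 : (T : ℝ) ≤ Nat.card (ClassGroup (𝓞 K)) := by exact_mod_cast hTh
    linarith
  have hT2 : (S.card : ℝ) * T ≤ W := by
    have hex : ∀ p : {p // p ∈ S}, ∃ (P J : (Ideal (𝓞 K))⁰) (P' : Ideal (𝓞 K)),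
        (P : Ideal (𝓞 K)) * (J : Ideal (𝓞 K)) = Ideal.span {((p.1 : ℕ) : 𝓞 K)} ∧
        (P : Ideal (𝓞 K)).IsPrime ∧ P'.IsPrime ∧ (P : Ideal (𝓞 K)) ≠ P' ∧
        (p.1 : 𝓞 K) ∈ (P : Ideal (𝓞 K)) ∧ (p.1 : 𝓞 K) ∈ P' ∧
        ∀ x ∈ (P : Ideal (𝓞 K)), (x : K) ∈ smallField K ((150 * (X : ℝ) ^ 2) ^ l) → x ∈ P' := by
      rintro ⟨p, hp⟩
      rw [hS, mem_filter] at hp
      have hpd : ¬ (p : ℤ) ∣ discr K := by
        rw [Int.natCast_dvd]
        exact hp.2.2
      obtain ⟨P, P', hP, hP', hne, hpP, hpP', hF⟩ := hTP _ hsm p hp.2.1 hpd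
      have hp0 : (p : 𝓞 K) ≠ 0 := by exact_mod_cast hp.2.1.ne_zero
      have h1 : P ∣ Ideal.span {(p : 𝓞 K)} := by
        rw [Ideal.dvd_span_singleton]
        exact hpP
      obtain ⟨J, hJ⟩ := h1
      have hsp : Ideal.span {(p : 𝓞 K)} ≠ 0 := by
        rw [Ne, Ideal.zero_eq_bot, Ideal.span_singleton_eq_bot]
        exact hp0
      have hP0 : P ≠ 0 := by
        rintro rfl
        rw [zero_mul] at hJ
        exact hsp hJ
      have hJ0 : J ≠ 0 := by
        rintro rfl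
        rw [mul_zero] at hJ
        exact hsp hJ
      exact ⟨⟨P, mem_nonZeroDivisors_iff_ne_zero.mpr hP0⟩,
        ⟨J, mem_nonZeroDivisors_iff_ne_zero.mpr hJ0⟩, P', hJ.symm, hP, hP', hne, hpP, hpP', hF⟩
    choose P J P' h1 h2 h3 h4 h5 h6 h7 using hex
    have hSm : ∀ p : {p // p ∈ S}, p.1.Prime ∧ p.1 ≤ X := by
      rintro ⟨p, hp⟩
      rw [hS, mem_filter, mem_range] at hp
      exact ⟨hp.2.1, Nat.lt_succ_iff.mp hp.1⟩
    have key := ev2 hK hl N hN {p // p ∈ S} (fun p => p.1) X P J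
      (fun p => ⟨(hSm p).1.pos, (hSm p).2⟩) h1
      (fun i j hij z hz0 hz hw => by
        refine no_gen hl (smallField K ((150 * (X : ℝ) ^ 2) ^ l)) (hSm j).1 (hSm i).1
          (fun h => hij (Subtype.ext h.symm)) (P j) (P' j) (J i) (h2 j) (h3 j) (h4 j) (h5 j)
          (h6 j) (h7 j) ?_ z hz (mem_smallField z hw)
        have h8 : (i.1 : 𝓞 K) ∈ Ideal.span {((i.1 : ℕ) : 𝓞 K)} := Ideal.mem_span_singleton_self _
        rw [← h1 i] at h8
        exact Ideal.mul_le_right h8)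
    rw [Fintype.card_coe] at key
    exact key
  have hmax : max 1 (S.card : ℝ) * T ≤ W := by
    rcases le_total (1 : ℝ) (S.card : ℝ) with h | h
    · rw [max_eq_right h]; exact hT2
    · rw [max_eq_left h, one_mul]; exact hT1
  have hT0 : (0 : ℝ) ≤ T := by positivity
  have h1 : c' * (D : ℝ) ^ (δ - ε' / 2) * T ≤ C1 * (D : ℝ) ^ (1 / 2 + ε' / 2) := by
    calc c' * (D : ℝ) ^ (δ - ε' / 2) * T ≤ max 1 (S.card : ℝ) * T :=
          mul_le_mul_of_nonneg_right hM hT0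
      _ ≤ W := hmax
      _ ≤ C1 * (D : ℝ) ^ (1 / 2 + ε' / 2) := by rw [← hDK]; exact hW
  have hD0 : (0 : ℝ) < D := by linarith
  have h2 : (T : ℝ) ≤ C1 / c' * (D : ℝ) ^ (1 / 2 - δ + ε') := by
    have h3 : (D : ℝ) ^ (1 / 2 + ε' / 2) =
        (D : ℝ) ^ (δ - ε' / 2) * (D : ℝ) ^ (1 / 2 - δ + ε') := by
      rw [← Real.rpow_add hD0]
      congr 1
      ring
    rw [h3] at h1
    have h4 : 0 < (D : ℝ) ^ (δ - ε' / 2) := by positivity
    rw [div_mul_eq_mul_div, le_div_iff₀ hc'0]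
    have h5 : (D : ℝ) ^ (δ - ε' / 2) * (T * c') ≤
        (D : ℝ) ^ (δ - ε' / 2) * (C1 * (D : ℝ) ^ (1 / 2 - δ + ε')) := by linarith
    exact le_of_mul_le_mul_left h5 h4
  rw [hDK]
  refine h2.trans ?_
  have h6 : (D : ℝ) ^ (1 / 2 - δ + ε') ≤ (D : ℝ) ^ (1 / 2 - δ + ε) :=
    Real.rpow_le_rpow_of_exponent_le (by linarith) (by linarith)
  have h7 : 0 ≤ C1 / c' := by positivity
  exact mul_le_mul_of_nonneg_left h6 h7

end Pool.Agent.U218.CT
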