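import Pool.Agent.U218.CT.Dec
import Pool.Agent.U218.CT.Main

/-!
# The group-theoretic condition
-/

set_option autoImplicit false

namespace Pool.Agent.U218.CT

open NumberField Finset
open scoped Classical nonZeroDivisors Pointwise

variable {L : Type} [Field L] [NumberField L]

/-- there is a prime above `p` -/
theorem exists_prime_above {p : ℕ} (hp : p.Prime) : ∃ Q : Ideal (𝓞 L), Q.IsPrime ∧ (p : 𝓞 L) ∈ Q := by
  have h1 : Ideal.span {(p : 𝓞 L)} ≠ ⊤ := by
    intro h
    have h2 := congrArg Ideal.absNorm h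
    rw [Ideal.absNorm_span_natCast, Ideal.absNorm_top] at h2
    have h3 : Module.finrank ℤ (𝓞 L) ≠ 0 := by
      rw [RingOfIntegers.rank]
      exact Module.finrank_pos.ne'
    rcases Nat.pow_eq_one.mp h2 with h4 | h4
    · exact hp.one_lt.ne' h4
    · exact h3 h4
  obtain ⟨Q, hQ, hle⟩ := Ideal.exists_le_maximal _ h1
  exact ⟨Q, hQ.isPrime, hle (Ideal.mem_span_singleton_self _)⟩

/-- the condition on the pair `(G, U)`: for every `V` strictly above `U` and every `g` there is a
conjugate `h` of `g` with `V ⊄ U ⟨h⟩` -/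
def Scattered {G : Type*} [Group G] (U : Subgroup G) : Prop :=
  ∀ V : Subgroup G, U < V → ∀ g : G, ∃ x : G, ∃ v ∈ V, ∀ u ∈ U, ∀ k : ℕ,
    v ≠ u * (x * g * x⁻¹) ^ k

theorem twoPrimes [IsGalois ℚ L] (K : Type) [Field K] [NumberField K] [Algebra K L]
    (hK : Scattered (fixer K L)) : TwoPrimes K := by
  intro F hF p hp hd
  have hKL : IsScalarTower ℚ K L := IsScalarTower.of_algebraMap_eq' (Subsingleton.elim _ _)
  set ι : K →ₐ[ℚ] L := IsScalarTower.toAlgHom ℚ K L with hι
  -- the group V
  set V : Subgroup (L ≃ₐ[ℚ] L) := (F.map ι).fixingSubgroup with hV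
  have hUV : fixer K L < V := by
    refine lt_of_le_of_ne ?_ ?_
    · intro σ hσ
      rw [hV, IntermediateField.mem_fixingSubgroup_iff]
      rintro x ⟨y, _, rfl⟩
      exact hσ y
    · intro h
      apply hF
      have h1 : ι.fieldRange.fixingSubgroup = fixer K L := by
        ext σ
        rw [IntermediateField.mem_fixingSubgroup_iff, mem_fixer]
        constructor
        · intro h x
          exact h _ ⟨x, rfl⟩
        · rintro h x ⟨y, rfl⟩
          exact h y
      have h2 : ι.fieldRange = F.map ι := by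
        rw [← IsGalois.fixedField_fixingSubgroup ι.fieldRange, h1, h, hV,
          IsGalois.fixedField_fixingSubgroup]
      rw [eq_top_iff]
      intro x _
      have h3 : ι x ∈ F.map ι := by rw [← h2]; exact ⟨x, rfl⟩
      obtain ⟨y, hy, hxy⟩ := h3
      have h4 : y = x := ι.injective hxy
      rw [← h4]
      exact hy
  obtain ⟨Q0, hQ0, hpQ0⟩ := exists_prime_above (L := L) hp
  have hQ0b : Q0 ≠ ⊥ := by
    rintro rfl
    rw [Ideal.mem_bot] at hpQ0
    exact hp.ne_zero (by exact_mod_cast hpQ0)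
  have : Finite (𝓞 L ⧸ Q0) := Ideal.finiteQuotientOfFreeOfNeBot Q0 hQ0b
  obtain ⟨g, hg⟩ := IsArithFrobAt.exists_of_isInvariant ℤ (L ≃ₐ[ℚ] L) Q0
  obtain ⟨x, v, hv, hx⟩ := hK V hUV g
  set Q := x • Q0 with hQ
  have hQp : Q.IsPrime := hQ0.smul x
  have hpQ : (p : 𝓞 L) ∈ Q := by
    rw [hQ]
    have h1 := Ideal.smul_mem_pointwise_smul x _ _ hpQ0
    have h2 : x • (p : 𝓞 L) = (p : 𝓞 L) := by
      apply RingOfIntegers.coe_injective
      exact map_natCast x p
    rwa [h2] at h1
  have hgQ : IsArithFrobAt ℤ (x * g * x⁻¹) Q := hg.conj x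
  -- the second prime of L
  set Q' := v • Q with hQ'
  have hQ'p : Q'.IsPrime := hQp.smul v
  have hpQ' : (p : 𝓞 L) ∈ Q' := by
    rw [hQ']
    have h1 := Ideal.smul_mem_pointwise_smul v _ _ hpQ
    have h2 : v • (p : 𝓞 L) = (p : 𝓞 L) := by
      apply RingOfIntegers.coe_injective
      exact map_natCast v p
    rwa [h2] at h1
  have hgal : IsGalois K L := IsGalois.tower_top_of_isGalois ℚ K L
  refine ⟨Q.under (𝓞 K), Q'.under (𝓞 K), inferInstance, inferInstance, ?_, ?_, ?_, ?_⟩
  · intro h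
    obtain ⟨u, hu⟩ := Algebra.IsInvariant.exists_smul_of_under_eq (𝓞 K) (𝓞 L) (L ≃ₐ[K] L) Q Q' h
    set u' : L ≃ₐ[ℚ] L := u.restrictScalars ℚ with hu'
    have hu'U : u' ∈ fixer K L := by
      intro y
      exact u.commutes y
    have hu2 : u' • Q = u • Q := by
      rfl
    have h1 : (u'⁻¹ * v) • Q = Q := by
      rw [mul_smul, ← hQ', hu, ← hu2, inv_smul_smul]
    obtain ⟨u2, hu2U, k, hk⟩ := stab_le K hp hd Q hpQ _ hgQ _ h1
    refine hx (u' * u2) ((fixer K L).mul_mem hu'U hu2U) k ?_
    rw [mul_assoc, ← hk]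
    group
  · rw [Ideal.under_def, Ideal.mem_comap, map_natCast]
    exact hpQ
  · rw [Ideal.under_def, Ideal.mem_comap, map_natCast]
    exact hpQ'
  · intro y hy hyF
    rw [Ideal.under_def, Ideal.mem_comap] at hy ⊢
    have h1 := Ideal.smul_mem_pointwise_smul v _ _ hy
    have h2 : v • (algebraMap (𝓞 K) (𝓞 L) y) = algebraMap (𝓞 K) (𝓞 L) y := by
      apply RingOfIntegers.coe_injective
      have h4 := (IntermediateField.mem_fixingSubgroup_iff _ _).mp hv (ι (y : K)) ⟨(y : K), hyF, rfl⟩
      exact h4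
    rw [h2] at h1
    exact h1

/-- in a Galois extension whose group has no cyclic normal subgroup besides the trivial one, the
condition holds -/
theorem scattered_of_normal {G : Type*} [Group G]
    (h : ∀ N : Subgroup G, N.Normal → IsCyclic N → N = ⊥) : Scattered (⊥ : Subgroup G) := by
  intro V hV g
  by_contra hcon
  push Not at hcon
  have h1 : V ≤ (Subgroup.zpowers g).normalCore := by
    intro v hv x
    obtain ⟨u, hu, k, hk⟩ := hcon x⁻¹ v hv
    rw [Subgroup.mem_bot] at hu
    rw [hu, one_mul, inv_inv] at hk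
    refine ⟨(k : ℤ), ?_⟩
    have h2 : (x⁻¹ * g * x) ^ k = x⁻¹ * g ^ k * x := by
      have := conj_pow (i := k) (a := x⁻¹) (b := g)
      rw [inv_inv] at this
      exact this
    simp only [zpow_natCast]
    rw [hk, h2]
    group
  have h2 : IsCyclic (Subgroup.zpowers g).normalCore := by
    have h3 : (Subgroup.zpowers g).normalCore ≤ Subgroup.zpowers g := Subgroup.normalCore_le _
    exact isCyclic_of_injective (Subgroup.inclusion h3) (Subgroup.inclusion_injective h3)
  have h3 := h _ (Subgroup.normalCore_normal _) h2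
  rw [h3, le_bot_iff] at h1
  exact hV.ne' h1

theorem twoPrimes_galois (K : Type) [Field K] [NumberField K] [IsGalois ℚ K]
    (h : ∀ N : Subgroup (K ≃ₐ[ℚ] K), N.Normal → IsCyclic N → N = ⊥) : TwoPrimes K := by
  refine twoPrimes (L := K) K ?_
  have h1 : fixer K K = ⊥ := by
    rw [eq_bot_iff]
    intro σ hσ
    rw [Subgroup.mem_bot]
    ext x
    exact hσ x
  rw [h1]
  exact scattered_of_normal h

end Pool.Agent.U218.CT
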