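import Pool.Agent.U218.CT.Ctr

/-!
# The pointwise bound for groups with trivial centre
-/

set_option autoImplicit false

namespace Pool.Agent.U218.CT

open NumberField Finset Pool.Agent.TH847.LS Pool.Agent.TH847.LG NumberField.InfinitePlace
open scoped Classical nonZeroDivisors

/-- for every normal subgroup `N ≠ 1`, the elements `g` with `N ≤ ⟨g⟩` do not exist or lie in a
proper normal subgroup which contains `N` -/
def Spread (G : Type*) [Group G] : Prop :=
  ∀ N : Subgroup G, N.Normal → N ≠ ⊥ → (∀ g : G, ¬ N ≤ Subgroup.zpowers g) ∨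
    ∃ H : Subgroup G, H.Normal ∧ H ≠ ⊤ ∧ N ≤ H ∧ ∀ g : G, N ≤ Subgroup.zpowers g → g ∈ H

theorem spread_of_center {G : Type*} [Group G] (h : Subgroup.center G = ⊥) : Spread G := by
  intro N hN hN0
  by_cases hex : ∀ g : G, ¬ N ≤ Subgroup.zpowers g
  · exact Or.inl hex
  · right
    push Not at hex
    obtain ⟨g0, hg0⟩ := hex
    refine ⟨Subgroup.centralizer (N : Set G), ?_, ?_, ?_, ?_⟩
    · exact Subgroup.normal_centralizer
    · intro htop
      apply hN0
      rw [eq_bot_iff, ← h]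
      intro x hx
      rw [Subgroup.mem_center_iff]
      intro y
      have hy : y ∈ Subgroup.centralizer (N : Set G) := by rw [htop]; trivial
      exact (Subgroup.mem_centralizer_iff.mp hy x hx).symm
    · intro x hx
      rw [Subgroup.mem_centralizer_iff]
      intro y hy
      obtain ⟨a, rfl⟩ := hg0 hx
      obtain ⟨b, rfl⟩ := hg0 hy
      simp only
      rw [← zpow_add, ← zpow_add, add_comm]
    · intro g hg
      rw [Subgroup.mem_centralizer_iff]
      intro y hy
      obtain ⟨b, rfl⟩ := hg hy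
      simp only
      rw [← zpow_add_one, ← zpow_one_add, add_comm]

/-- the scales -/
def Ysc (A l Y0 : ℕ) : ℕ → ℕ
  | 0 => Y0
  | i + 1 => (150 * (Ysc A l Y0 i ^ A) ^ 2) ^ l

theorem Ysc_ge {A l Y0 : ℕ} (hl : 1 ≤ l) (hA : 1 ≤ A) (i : ℕ) :
    Ysc A l Y0 i ≤ Ysc A l Y0 (i + 1) := by
  show Ysc A l Y0 i ≤ (150 * (Ysc A l Y0 i ^ A) ^ 2) ^ l
  set z := Ysc A l Y0 i with hz
  rcases Nat.eq_zero_or_pos z with h0 | h0
  · rw [h0]; exact Nat.zero_le _
  calc z ≤ z ^ A := Nat.le_self_pow (by omega) _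
    _ ≤ (z ^ A) ^ 2 := Nat.le_self_pow (by omega) _
    _ ≤ 150 * (z ^ A) ^ 2 := by omega
    _ ≤ _ := Nat.le_self_pow (by omega) _

theorem Ysc_le {A l Y0 : ℕ} (hl : 1 ≤ l) (hA : 1 ≤ A) (h150 : 150 ≤ Y0) (i : ℕ) :
    Y0 ≤ Ysc A l Y0 i ∧ Ysc A l Y0 i ≤ Y0 ^ (((2 * A + 1) * l) ^ i) := by
  induction i with
  | zero => simp [Ysc]
  | succ i ih =>
    refine ⟨ih.1.trans (Ysc_ge hl hA i), ?_⟩
    show (150 * (Ysc A l Y0 i ^ A) ^ 2) ^ l ≤ _
    set z := Ysc A l Y0 i with hz
    calc (150 * (z ^ A) ^ 2) ^ l ≤ (z * (z ^ A) ^ 2) ^ l := by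
          refine Nat.pow_le_pow_left (Nat.mul_le_mul_right _ (h150.trans ih.1)) l
      _ = z ^ ((2 * A + 1) * l) := by ring
      _ ≤ (Y0 ^ (((2 * A + 1) * l) ^ i)) ^ ((2 * A + 1) * l) := Nat.pow_le_pow_left ih.2 _
      _ = Y0 ^ (((2 * A + 1) * l) ^ (i + 1)) := by
          rw [← pow_mul, pow_succ]

/-- the primes counted at one scale -/
theorem exists_primes (hStark : ∀ (E : Type) [Field E] [NumberField E], 1 < Module.finrank ℚ E →
      StarkIneq E) : ∃ y0 : ℕ, ∀ (K : Type) [Field K] [NumberField K] [IsGalois ℚ K] (n : ℕ),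
    Module.finrank ℚ K = n → Spread (K ≃ₐ[ℚ] K) → ∀ T : ℕ, y0 ≤ T → 2 * n ^ 3 ≤ T →
    ∀ F : IntermediateField ℚ K, F = smallField K T → F ≠ ⊤ →
    ∃ S : Finset ℕ, (∀ p ∈ S, p.Prime ∧ p ≤ T ^ (24 * n ^ 2) ∧ TwoAt F p) ∧
      (T : ℝ) ≤ S.card + (discr K).natAbs.primeFactors.card := by
  obtain ⟨y0, hy0⟩ := many_nonsplit
  refine ⟨y0 + 150, ?_⟩
  intro K _ _ _ n hK hSp T hT hTn F hF hFt
  have hn0 : 0 < n := by rw [← hK]; exact Module.finrank_pos
  have hT150 : 150 ≤ T := by omega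
  have hTr : (150 : ℝ) ≤ T := by exact_mod_cast hT150
  set y := T ^ (2 * n ^ 2) with hy
  have hexp : 2 ≤ 2 * n ^ 2 := by
    have : 1 ≤ n ^ 2 := Nat.one_le_pow _ _ hn0
    omega
  have hTy : T ^ 2 ≤ y := Nat.pow_le_pow_right (by omega) hexp
  have hTy1 : T ≤ y := (Nat.le_self_pow (by omega) T).trans hTy
  have hsy : (T : ℝ) ≤ √(y : ℝ) := by
    refine Real.le_sqrt_of_sq_le ?_
    exact_mod_cast hTy
  have hyX : y ^ 12 = T ^ (24 * n ^ 2) := by rw [hy, ← pow_mul]; congr 1; ring
  -- the primes dividing the discriminant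
  have hdd : ∀ p : ℕ, ¬ p ∣ (discr K).natAbs → ¬ (p : ℤ) ∣ discr K := by
    intro p h
    rw [Int.natCast_dvd]
    exact h
  have hD0 : (discr K).natAbs ≠ 0 := Int.natAbs_ne_zero.mpr (NumberField.discr_ne_zero K)
  have hcount : ∀ Q : ℕ → Prop, (((Finset.range (y ^ 12 + 1)).filter
      (fun p => p.Prime ∧ Q p)).card : ℝ) ≤ (((Finset.range (y ^ 12 + 1)).filter
      (fun p => p.Prime ∧ Q p ∧ ¬ p ∣ (discr K).natAbs)).card : ℝ) +
        (discr K).natAbs.primeFactors.card := by
    intro Q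
    have h1 : (Finset.range (y ^ 12 + 1)).filter (fun p => p.Prime ∧ Q p) ⊆
        (Finset.range (y ^ 12 + 1)).filter (fun p => p.Prime ∧ Q p ∧ ¬ p ∣ (discr K).natAbs) ∪
          (discr K).natAbs.primeFactors := by
      intro p hp
      rw [mem_filter] at hp
      rw [mem_union, mem_filter, Nat.mem_primeFactors]
      by_cases h : p ∣ (discr K).natAbs
      · exact Or.inr ⟨hp.2.1, h, hD0⟩
      · exact Or.inl ⟨hp.1, hp.2.1, hp.2.2, h⟩
    exact_mod_cast (Finset.card_le_card h1).trans (Finset.card_union_le _ _)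
  set N := F.fixingSubgroup with hN
  have hNn : N.Normal := by rw [hN, hF]; exact smallField_normal _
  have hN0 : N ≠ ⊥ := by
    intro h
    apply hFt
    rw [← IsGalois.fixedField_fixingSubgroup F, ← hN, h, IntermediateField.fixedField_bot]
  rcases hSp N hNn hN0 with h1 | ⟨H, hHn, hHt, hNH, hH⟩
  · -- no obstruction
    refine ⟨(Finset.range (y ^ 12 + 1)).filter
      (fun p => p.Prime ∧ True ∧ ¬ p ∣ (discr K).natAbs), ?_, ?_⟩
    · intro p hp
      rw [mem_filter, mem_range] at hp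
      refine ⟨hp.2.1, by rw [← hyX]; omega, ?_⟩
      obtain ⟨Q, g, -, -, -, h2⟩ := frob_or F hp.2.1 (hdd p hp.2.2.2)
      exact h2.resolve_left (h1 g)
    · refine le_trans ?_ (le_trans (hcount (fun _ => True)) (le_of_eq (by congr!)))
      have h2 := pi_lower (1 / 2) (by norm_num) (by norm_num) (y ^ 12)
      have h3 : (((Finset.range (y ^ 12 + 1)).filter (fun p => p.Prime ∧ True)).card : ℝ) =
          Nat.primeCounting (y ^ 12) := by
        rw [Nat.primeCounting, Nat.primeCounting', Nat.count_eq_card_filter_range]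
        simp only [and_true]
      have h4 : (((y ^ 12 : ℕ) : ℝ)) ^ (1 - 1 / 2 : ℝ) = (y : ℝ) ^ 6 := by
        push_cast
        rw [← Real.rpow_natCast, ← Real.rpow_mul (by positivity), ← Real.rpow_natCast]
        norm_num
      rw [h4] at h2
      have hyr : (150 : ℝ) ≤ y := hTr.trans (by exact_mod_cast hTy1)
      have h5 : (y : ℝ) * 150 ^ 5 ≤ (y : ℝ) ^ 6 := by
        have : (y : ℝ) ^ 6 = y * y ^ 5 := by ring
        rw [this]
        gcongr
      have h6 : (T : ℝ) ≤ y := by exact_mod_cast hTy1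
      have h7 : (T : ℝ) ≤ Nat.primeCounting (y ^ 12) := by nlinarith
      refine h7.trans (le_of_eq ?_)
      rw [← h3]
      congr!
  · -- Frobenius in a proper normal subgroup
    have := hHn
    set E := IntermediateField.fixedField H with hE
    have hEF : E ≤ F := by
      rw [hE, ← IsGalois.fixedField_fixingSubgroup F, ← hN]
      exact IntermediateField.fixedField_antitone hNH
    have hfr : 1 < Module.finrank ℚ E := by
      rcases Nat.lt_or_ge 1 (Module.finrank ℚ E) with h | h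
      · exact h
      · exfalso
        apply hHt
        have h2 : Module.finrank ℚ E = 1 := le_antisymm h Module.finrank_pos
        have h3 : E = ⊥ := IntermediateField.finrank_eq_one_iff.mp h2
        rw [← IntermediateField.fixingSubgroup_fixedField H, ← hE, h3,
          IntermediateField.fixingSubgroup_bot]
    have hDE : |(discr E : ℝ)| ≤ y := by
      have h2 : |(discr E : ℝ)| ≤ |(discr F : ℝ)| := by
        let _ : Algebra E F := (IntermediateField.inclusion hEF).toRingHom.toAlgebra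
        have h3 := NumberField.discr_dvd_discr (K := E) (L := F)
        have h4 := Int.natAbs_dvd_natAbs.mpr h3
        have h5 := Nat.le_of_dvd (Int.natAbs_pos.mpr (NumberField.discr_ne_zero F)) h4
        rw [← Int.cast_abs, ← Int.cast_abs, Int.abs_eq_natAbs, Int.abs_eq_natAbs]
        exact_mod_cast h5
      have h3 := discr_smallField hK (T := (T : ℝ)) (by linarith) F hF
      refine (h2.trans h3).trans ?_
      calc (2 * (n : ℝ) ^ 3 * T) ^ (n ^ 2) ≤ ((T : ℝ) * T) ^ (n ^ 2) := by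
            have : 2 * (n : ℝ) ^ 3 ≤ T := by exact_mod_cast hTn
            gcongr
        _ = (y : ℝ) := by
            rw [hy]
            push_cast
            rw [← sq, ← pow_mul]
    refine ⟨(Finset.range (y ^ 12 + 1)).filter
      (fun p => p.Prime ∧ ¬ TwoDegOne E p ∧ ¬ p ∣ (discr K).natAbs), ?_, ?_⟩
    · intro p hp
      rw [mem_filter, mem_range] at hp
      refine ⟨hp.2.1, by rw [← hyX]; omega, ?_⟩
      obtain ⟨Q, g, hQ, hpQ, hg, h2⟩ := frob_or F hp.2.1 (hdd p hp.2.2.2)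
      refine h2.resolve_left fun h3 => ?_
      exact hp.2.2.1 (twoDegOne_of H hHt hp.2.1 (hdd p hp.2.2.2) Q hpQ g hg (hH g h3))
    · refine le_trans ?_ (le_trans (hcount (fun p => ¬ TwoDegOne E p)) (le_of_eq (by congr!)))
      exact hsy.trans ((hy0 E (hStark E hfr) y (by omega) hDE).trans (le_of_eq (by congr!)))

end Pool.Agent.U218.CT
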