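import Pool.Agent.U218.CT.MainB

/-!
# The pointwise bound for groups with trivial centre, conclusion
-/

set_option autoImplicit false

namespace Pool.Agent.U218.CT

open NumberField Finset Pool.Agent.TH847.LS Pool.Agent.TH847.LG NumberField.InfinitePlace
open scoped Classical nonZeroDivisors

theorem mainC (hStark : ∀ (E : Type) [Field E] [NumberField E], 1 < Module.finrank ℚ E →
      StarkIneq E) (n : ℕ) (hn : 2 ≤ n) (l : ℕ) (hl : 1 ≤ l) : ∃ C : ℝ,
    ∀ (K : Type) [Field K] [NumberField K] [IsGalois ℚ K], Module.finrank ℚ K = n →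
    Spread (K ≃ₐ[ℚ] K) →
    (Nat.card {c : ClassGroup (𝓞 K) // c ^ l = 1} : ℝ) ≤
      C * |(discr K : ℝ)| ^ (1 / 2 - 1 / (8 * n ^ 2 * ((48 * n ^ 2 + 1) * l) ^ n) : ℝ) := by
  obtain ⟨y0, hy0⟩ := exists_primes hStark
  have hnr : (2 : ℝ) ≤ n := by exact_mod_cast hn
  have hlr : (1 : ℝ) ≤ l := by exact_mod_cast hl
  set A : ℕ := 24 * n ^ 2 with hA
  have hA1 : 1 ≤ A := by
    have : 1 ≤ n ^ 2 := Nat.one_le_pow _ _ (by omega)
    omega
  set κ : ℕ := (2 * A + 1) * l with hκ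
  have hκ1 : 1 ≤ κ := Nat.mul_pos (by omega) hl
  have hκr : (κ : ℝ) = (48 * n ^ 2 + 1) * l := by
    rw [hκ, hA]; push_cast; ring
  have hκ0 : (1 : ℝ) ≤ κ := by exact_mod_cast hκ1
  set δ : ℝ := 1 / (4 * n ^ 2 * (κ : ℝ) ^ n) with hδ
  have hδ0 : 0 < δ := by positivity
  have hδ2 : (1 : ℝ) / (8 * n ^ 2 * ((48 * n ^ 2 + 1) * l) ^ n) = δ / 2 := by
    rw [hδ, hκr]
    field_simp
    ring
  obtain ⟨C1, hC10, hC1⟩ := W_bound n hn (δ / 2) (by positivity)
  have hl2 : 0 < Real.log 2 := Real.log_pos (by norm_num)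
  obtain ⟨K0, hK00, hK0⟩ := log_le_pow_add δ (Real.log 2 / 2) hδ0 (by positivity)
  set Ym : ℕ := y0 + 150 + 2 * n ^ 3 with hYm
  set M : ℝ := 2 * (2 + K0 / Real.log 2) + (Ym + 1) with hM
  have hM0 : 0 < M := by positivity
  refine ⟨C1 * M, ?_⟩
  intro K _ _ _ hK hSp
  rw [hδ2]
  obtain ⟨N, hN, hW⟩ := hC1 K hK
  set D := (discr K).natAbs with hD
  have hDK : |(discr K : ℝ)| = (D : ℝ) := by
    rw [hD, Nat.cast_natAbs]
    push_cast
    rfl
  have hD2 : 2 < D := by
    have := abs_discr_gt_two (K := K) (by rw [hK]; omega)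
    rw [Int.abs_eq_natAbs] at this
    exact_mod_cast this
  have hDr : (2 : ℝ) < D := by exact_mod_cast hD2
  have hD0 : (0 : ℝ) < D := by linarith
  set W := ∑ J ∈ FI K N, (1 + Real.log ((N : ℝ) / Ideal.absNorm J)) ^ n with hWd
  set T := Nat.card {c : ClassGroup (𝓞 K) // c ^ l = 1} with hT
  have hT0 : (0 : ℝ) ≤ T := by positivity
  -- the set of primes
  have key : ∃ m : ℝ, (D : ℝ) ^ δ ≤ M * m ∧ m * T ≤ W := by
    set Y0 := ⌊(D : ℝ) ^ δ⌋₊ with hY0
    have hY0D : (Y0 : ℝ) ≤ (D : ℝ) ^ δ := Nat.floor_le (by positivity)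
    have hY0D' : (D : ℝ) ^ δ ≤ Y0 + 1 := (Nat.lt_floor_add_one _).le
    by_cases hbig : Ym ≤ Y0
    · -- large discriminants
      set Y := Ysc A l Y0 with hY
      have h150 : 150 ≤ Y0 := by omega
      have hYge : ∀ i, Y0 ≤ Y i := fun i => (Ysc_le hl hA1 h150 i).1
      have hYle : ∀ i, Y i ≤ Y0 ^ (κ ^ i) := fun i => (Ysc_le hl hA1 h150 i).2
      have hmono : Monotone (fun i => ((Y i : ℕ) : ℝ)) := by
        refine monotone_nat_of_le_succ fun i => ?_
        exact_mod_cast Ysc_ge hl hA1 i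
      obtain ⟨i, hi, hst⟩ := exists_stable hK (fun i => ((Y i : ℕ) : ℝ)) hmono
      -- the field is proper
      have hprop : smallField K ((Y n : ℕ) : ℝ) ≠ ⊤ := by
        intro htop
        have h1 := discr_le_of_top hK (T := ((Y n : ℕ) : ℝ)) (by positivity) htop
        rw [hDK] at h1
        have h2 : (2 : ℝ) * (n * (n * n) * (Y n : ℕ)) ≤ ((Y n : ℕ) : ℝ) ^ 2 := by
          have h3 : (2 : ℝ) * n ^ 3 ≤ (Y n : ℕ) := by
            have h4 : 2 * n ^ 3 ≤ Y n := le_trans (by omega) (hYge n)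
            exact_mod_cast h4
          have h4 : (0 : ℝ) ≤ (Y n : ℕ) := by positivity
          nlinarith
        have h3 : (1 : ℝ) ≤ ((Y n : ℕ) : ℝ) := by
          have := hYge n
          exact_mod_cast (by omega : 1 ≤ Y n)
        have h4 : (D : ℝ) ≤ ((Y n : ℕ) : ℝ) ^ (2 * n ^ 2) := by
          calc (D : ℝ) ≤ (2 * (n * (n * n) * (Y n : ℕ))) ^ (n * (n - 1)) := h1
            _ ≤ (((Y n : ℕ) : ℝ) ^ 2) ^ (n * (n - 1)) := by gcongr
            _ ≤ (((Y n : ℕ) : ℝ) ^ 2) ^ (n ^ 2) := by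
                refine pow_le_pow_right₀ (one_le_pow₀ h3) ?_
                rw [sq]
                exact Nat.mul_le_mul_left _ (Nat.sub_le _ _)
            _ = _ := by rw [← pow_mul]
        have h5 : ((Y n : ℕ) : ℝ) ≤ (D : ℝ) ^ (δ * (κ : ℝ) ^ n) := by
          calc ((Y n : ℕ) : ℝ) ≤ (Y0 : ℝ) ^ (κ ^ n) := by exact_mod_cast hYle n
            _ ≤ ((D : ℝ) ^ δ) ^ (κ ^ n) := by gcongr
            _ = (D : ℝ) ^ (δ * (κ : ℝ) ^ n) := by
                rw [← Real.rpow_natCast, ← Real.rpow_mul hD0.le]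
                push_cast
                rfl
        have h6 : (D : ℝ) ≤ (D : ℝ) ^ (1 / 2 : ℝ) := by
          calc (D : ℝ) ≤ ((Y n : ℕ) : ℝ) ^ (2 * n ^ 2) := h4
            _ ≤ ((D : ℝ) ^ (δ * (κ : ℝ) ^ n)) ^ (2 * n ^ 2) := by gcongr
            _ = (D : ℝ) ^ (1 / 2 : ℝ) := by
                rw [← Real.rpow_natCast, ← Real.rpow_mul hD0.le]
                congr 1
                rw [hδ]
                push_cast
                field_simp
                ring
        have h7 : (D : ℝ) ^ (1 / 2 : ℝ) < (D : ℝ) ^ (1 : ℝ) :=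
          Real.rpow_lt_rpow_of_exponent_lt (by linarith) (by norm_num)
        rw [Real.rpow_one] at h7
        linarith
      have hFt : smallField K ((Y i : ℕ) : ℝ) ≠ ⊤ := by
        intro htop
        apply hprop
        rw [eq_top_iff, ← htop]
        exact smallField_mono (hmono hi.le)
      obtain ⟨S, hS1, hS2⟩ := hy0 K n hK hSp (Y i) (le_trans (by omega) (hYge i))
        (le_trans (by omega) (hYge i)) _ rfl hFt
      refine ⟨max 1 (S.card : ℝ), ?_, ?_⟩
      · have h1 : (Y0 : ℝ) ≤ (Y i : ℕ) := by exact_mod_cast hYge i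
        have h2 : (D.primeFactors.card : ℝ) ≤ Real.log D / Real.log 2 := by
          rw [le_div_iff₀ hl2, ← Real.log_pow]
          refine Real.log_le_log (by positivity) ?_
          have h5 : 2 ^ D.primeFactors.card ≤ D := by
            calc 2 ^ D.primeFactors.card ≤ ∏ p ∈ D.primeFactors, p := by
                  refine Finset.pow_card_le_prod _ _ _ fun p hp => ?_
                  exact (Nat.prime_of_mem_primeFactors hp).two_le
              _ ≤ D := Nat.le_of_dvd (by omega) (Nat.prod_primeFactors_dvd D)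
          exact_mod_cast h5
        have h3 := hK0 D (by linarith)
        have h4 : Real.log D / Real.log 2 ≤ (D : ℝ) ^ δ / 2 + K0 / Real.log 2 := by
          rw [div_le_iff₀ hl2]
          refine h3.trans (le_of_eq ?_)
          field_simp
        have h5 : (D : ℝ) ^ δ / 2 ≤ S.card + (1 + K0 / Real.log 2) := by linarith
        have h6 : (S.card : ℝ) ≤ max 1 (S.card : ℝ) := le_max_right _ _
        have h7 : 1 ≤ max 1 (S.card : ℝ) := le_max_left _ _
        have h8 : 0 ≤ K0 / Real.log 2 := by positivity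
        have h9 : (0 : ℝ) ≤ Ym + 1 := by positivity
        have h10 : (D : ℝ) ^ δ ≤ 2 * (2 + K0 / Real.log 2) * max 1 (S.card : ℝ) := by nlinarith
        refine h10.trans ?_
        rw [hM]
        have h11 : 0 ≤ max 1 (S.card : ℝ) := by linarith
        nlinarith
      · refine pack_set hK hl N hN ((Y i) ^ A) S fun p hp => ?_
        obtain ⟨h1, h2, h3⟩ := hS1 p hp
        refine ⟨h1, h2, ?_⟩
        have h4 : ((150 * (((Y i) ^ A : ℕ) : ℝ) ^ 2) ^ l) = ((Y (i + 1) : ℕ) : ℝ) := by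
          show _ = (((150 * (Ysc A l Y0 i ^ A) ^ 2) ^ l : ℕ) : ℝ)
          push_cast
          rfl
        rw [h4, ← hst]
        exact h3
    · -- small discriminants
      push Not at hbig
      refine ⟨1, ?_, ?_⟩
      · have h1 : (Y0 : ℝ) + 1 ≤ Ym + 1 := by
          have : (Y0 : ℝ) ≤ Ym := by exact_mod_cast hbig.le
          linarith
        have h2 : 0 ≤ 2 * (2 + K0 / Real.log 2) := by positivity
        rw [hM]
        linarith
      · rw [one_mul]
        have hTh : T ≤ Nat.card (ClassGroup (𝓞 K)) :=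
          Nat.card_le_card_of_injective _ Subtype.val_injective
        have h1 := class_le_n hK N hN
        have h2 : (T : ℝ) ≤ Nat.card (ClassGroup (𝓞 K)) := by exact_mod_cast hTh
        linarith
  obtain ⟨m, hm1, hm2⟩ := key
  have h1 : (D : ℝ) ^ δ * T ≤ M * (C1 * (D : ℝ) ^ (1 / 2 + δ / 2)) := by
    calc (D : ℝ) ^ δ * T ≤ (M * m) * T := mul_le_mul_of_nonneg_right hm1 hT0
      _ = M * (m * T) := by ring
      _ ≤ M * (C1 * (D : ℝ) ^ (1 / 2 + δ / 2)) := by
          refine mul_le_mul_of_nonneg_left (hm2.trans ?_) hM0.le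
          rw [← hDK]
          exact hW
  have h3 : (D : ℝ) ^ (1 / 2 + δ / 2) = (D : ℝ) ^ δ * (D : ℝ) ^ (1 / 2 - δ / 2) := by
    rw [← Real.rpow_add hD0]
    congr 1
    ring
  rw [h3] at h1
  have h4 : 0 < (D : ℝ) ^ δ := by positivity
  rw [hDK]
  have h5 : (D : ℝ) ^ δ * T ≤ (D : ℝ) ^ δ * (C1 * M * (D : ℝ) ^ (1 / 2 - δ / 2)) := by linarith
  exact le_of_mul_le_mul_left h5 h4

end Pool.Agent.U218.CT
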